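import Pool.Agent.Lib.MP_cb2e5b_nt.Fifth.Four

/-!
The number of the `w` in a range with a cube near `w ^ 5`.
-/

set_option autoImplicit false

open scoped Classical in
/-- the `w` in `(a, b]` with a `p`-th power near `w ^ 5`, different from `w ^ 5` -/
noncomputable def PerfectPowerDiff.Fifth.goodF (p N a b : ℕ) : Finset ℕ :=
  (Finset.Ioc a b).filter (fun w => ∃ x : ℕ, x ^ p ≠ w ^ 5 ∧ x ^ p ≤ w ^ 5 + N ∧ w ^ 5 ≤ x ^ p + N)

namespace PerfectPowerDiff.Fifth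

theorem mem_goodF {p N a b w : ℕ} : w ∈ goodF p N a b ↔ (a < w ∧ w ≤ b) ∧
    ∃ x : ℕ, x ^ p ≠ w ^ 5 ∧ x ^ p ≤ w ^ 5 + N ∧ w ^ 5 ≤ x ^ p + N := by
  unfold goodF
  simp only [Finset.mem_filter, Finset.mem_Ioc]

theorem goodF_union {p N a b c : ℕ} : goodF p N a c ⊆ goodF p N a b ∪ goodF p N b c := by
  intro z hz
  rw [mem_goodF] at hz
  rw [Finset.mem_union, mem_goodF, mem_goodF]
  by_cases h : z ≤ b
  · exact Or.inl ⟨⟨hz.1.1, h⟩, hz.2⟩
  · exact Or.inr ⟨⟨not_le.1 h, hz.1.2⟩, hz.2⟩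

/-- one cell -/
private lemma card_cell {N L a b c : ℕ} (hL0 : 0 < L) (hL : 8 * L ^ 18 ≤ a ^ 4)
    (hN : 4160 * N < a ^ 2) :
    ((goodF 3 N a b).filter (fun z => z / L = c)).card ≤ 3 := by
  set s := (goodF 3 N a b).filter (fun z => z / L = c) with hs
  have hmem : ∀ z ∈ s, a < z ∧ z / L = c ∧ ∃ x : ℕ, x ^ 3 ≤ z ^ 5 + N ∧ z ^ 5 ≤ x ^ 3 + N := by
    intro z hz
    rw [hs, Finset.mem_filter, mem_goodF] at hz
    obtain ⟨⟨⟨h1, h2⟩, x, h3, h4, h5⟩, h6⟩ := hz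
    exact ⟨h1, h6, x, h4, h5⟩
  by_contra hcon
  have h4 : 4 ≤ s.card := by omega
  have hf : ∀ i, s.orderEmbOfFin rfl i ∈ s := fun i => Finset.orderEmbOfFin_mem s rfl i
  have hlt : ∀ i j : Fin s.card, i < j → s.orderEmbOfFin rfl i < s.orderEmbOfFin rfl j :=
    fun i j h => (s.orderEmbOfFin rfl).strictMono h
  set y1 := s.orderEmbOfFin rfl ⟨0, by omega⟩ with hy1
  set y2 := s.orderEmbOfFin rfl ⟨1, by omega⟩ with hy2
  set y3 := s.orderEmbOfFin rfl ⟨2, by omega⟩ with hy3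
  set y4 := s.orderEmbOfFin rfl ⟨3, by omega⟩ with hy4
  have l12 : y1 < y2 := hlt _ _ (by simp [Fin.lt_def])
  have l23 : y2 < y3 := hlt _ _ (by simp [Fin.lt_def])
  have l34 : y3 < y4 := hlt _ _ (by simp [Fin.lt_def])
  obtain ⟨m1, m2, x1, m3, m4⟩ := hmem y1 (hf _)
  obtain ⟨_, _, x2, n3, n4⟩ := hmem y2 (hf _)
  obtain ⟨_, _, x3, o3, o4⟩ := hmem y3 (hf _)
  obtain ⟨_, M2, x4, p3, p4⟩ := hmem y4 (hf _)
  have hd : y4 - y1 ≤ L := by
    have h1 := Nat.div_add_mod y4 L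
    have h2 := Nat.div_add_mod y1 L
    have h5 := Nat.mod_lt y4 hL0
    rw [M2] at h1
    rw [m2] at h2
    omega
  exact four_points l12 l23 l34 hd (hL.trans (Nat.pow_le_pow_left m1.le 4))
    (lt_of_lt_of_le hN (Nat.pow_le_pow_left m1.le 2)) m3 m4 n3 n4 o3 o4 p3 p4

private lemma card_range {N L a b : ℕ} (hL0 : 0 < L) (hL : 8 * L ^ 18 ≤ a ^ 4)
    (hN : 4160 * N < a ^ 2) : (goodF 3 N a b).card ≤ 3 * (b / L + 1) := by
  have h1 := Finset.card_le_mul_card_image (f := fun z => z / L) (goodF 3 N a b) 3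
    (fun c _ => card_cell hL0 hL hN)
  refine h1.trans (Nat.mul_le_mul_left _ ?_)
  have h2 : (goodF 3 N a b).image (fun z => z / L) ⊆ Finset.range (b / L + 1) := by
    intro c hc
    rw [Finset.mem_image] at hc
    obtain ⟨z, hz, rfl⟩ := hc
    rw [mem_goodF] at hz
    rw [Finset.mem_range]
    have := Nat.div_le_div_right (c := L) hz.1.2
    omega
  have h3 := Finset.card_le_card h2
  rwa [Finset.card_range] at h3

private lemma card_step {D t j : ℕ} (hD : 2 ≤ D) (ht : 2 ≤ t) (h1 : 3 * t ≤ j) (h2 : j + 3 ≤ 4 * t) :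
    (goodF 3 (D ^ (30 * t)) (D ^ (9 * j)) (D ^ (9 * (j + 1)))).card ≤ 6 * D ^ (30 * t - 1) := by
  have hD0 : 0 < D := by omega
  have hL0 : 0 < D ^ (2 * j - 1) := pow_pos hD0 _
  have hL : 8 * (D ^ (2 * j - 1)) ^ 18 ≤ (D ^ (9 * j)) ^ 4 := by
    calc 8 * (D ^ (2 * j - 1)) ^ 18 ≤ D ^ 3 * (D ^ (2 * j - 1)) ^ 18 :=
          Nat.mul_le_mul_right _ (by
            calc 8 = 2 ^ 3 := by norm_num
              _ ≤ D ^ 3 := Nat.pow_le_pow_left hD 3)
      _ = D ^ (3 + (2 * j - 1) * 18) := by rw [← pow_mul, ← pow_add]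
      _ ≤ D ^ (9 * j * 4) := Nat.pow_le_pow_right hD0 (by omega)
      _ = (D ^ (9 * j)) ^ 4 := by rw [pow_mul]
  have hN : 4160 * D ^ (30 * t) < (D ^ (9 * j)) ^ 2 := by
    calc 4160 * D ^ (30 * t) < D ^ 13 * D ^ (30 * t) :=
          Nat.mul_lt_mul_of_pos_right (by
            calc 4160 < 2 ^ 13 := by norm_num
              _ ≤ D ^ 13 := Nat.pow_le_pow_left hD 13) (pow_pos hD0 _)
      _ = D ^ (13 + 30 * t) := (pow_add _ _ _).symm
      _ ≤ D ^ (9 * j * 2) := Nat.pow_le_pow_right hD0 (by omega)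
      _ = (D ^ (9 * j)) ^ 2 := by rw [pow_mul]
  refine (card_range (b := D ^ (9 * (j + 1))) hL0 hL hN).trans ?_
  have e1 : D ^ (9 * (j + 1)) / D ^ (2 * j - 1) = D ^ (7 * j + 10) := by
    rw [show 9 * (j + 1) = (7 * j + 10) + (2 * j - 1) by omega, pow_add]
    exact Nat.mul_div_cancel _ hL0
  rw [e1]
  have u2 : 1 ≤ D ^ (7 * j + 10) := Nat.one_le_pow _ _ hD0
  calc 3 * (D ^ (7 * j + 10) + 1) ≤ 6 * D ^ (7 * j + 10) := by omega
    _ ≤ 6 * D ^ (30 * t - 1) := Nat.mul_le_mul_left _ (Nat.pow_le_pow_right hD0 (by omega))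

private lemma card_upto {D t : ℕ} (hD : 2 ≤ D) (ht : 2 ≤ t) : ∀ i : ℕ, i + 2 ≤ t →
    (goodF 3 (D ^ (30 * t)) (D ^ (27 * t)) (D ^ (9 * (3 * t + i)))).card ≤
      i * (6 * D ^ (30 * t - 1)) := by
  intro i
  induction i with
  | zero =>
    intro _
    have : goodF 3 (D ^ (30 * t)) (D ^ (27 * t)) (D ^ (9 * (3 * t + 0))) = ∅ := by
      rw [Finset.eq_empty_iff_forall_notMem]
      intro z hz
      rw [mem_goodF, show 9 * (3 * t + 0) = 27 * t by ring] at hz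
      omega
    rw [this]
    simp
  | succ i ih =>
    intro h
    have h1 := ih (by omega)
    have h2 := card_step (D := D) (t := t) (j := 3 * t + i) hD ht (by omega) (by omega)
    have h3 := (Finset.card_le_card (goodF_union (p := 3) (N := D ^ (30 * t)) (a := D ^ (27 * t))
      (b := D ^ (9 * (3 * t + i))) (c := D ^ (9 * (3 * t + i + 1))))).trans
      (Finset.card_union_le _ _)
    have h4 : (i + 1) * (6 * D ^ (30 * t - 1)) =
        i * (6 * D ^ (30 * t - 1)) + 6 * D ^ (30 * t - 1) := by ring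
    rw [h4, show 3 * t + (i + 1) = 3 * t + i + 1 by ring]
    omega

/-- cubes near fifth powers -/
theorem card_goodF3 {D t : ℕ} (hD : 2 ≤ D) (ht : 2 ≤ t) :
    (goodF 3 (D ^ (30 * t)) (D ^ (27 * t)) (D ^ (36 * t - 18))).card ≤
      6 * t * D ^ (30 * t - 1) := by
  have h1 := card_upto (D := D) (t := t) hD ht (t - 2) (by omega)
  rw [show 9 * (3 * t + (t - 2)) = 36 * t - 18 by omega] at h1
  refine h1.trans ?_
  calc (t - 2) * (6 * D ^ (30 * t - 1)) ≤ t * (6 * D ^ (30 * t - 1)) :=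
        Nat.mul_le_mul_right _ (by omega)
    _ = 6 * t * D ^ (30 * t - 1) := by ring

end PerfectPowerDiff.Fifth
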