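import Mathlib

/-!
Four points `(y, x)` near the curve `x ^ 3 = y ^ 5` cannot be close together.
-/

set_option autoImplicit false

namespace PerfectPowerDiff.Fifth

/-- the Schur polynomial -/
private def SS (a b c d : ℝ) : ℝ :=
  a ^ 3 * b ^ 3 * c ^ 2 + a ^ 3 * b ^ 3 * c * d + a ^ 3 * b ^ 3 * d ^ 2 + a ^ 3 * b ^ 2 * c ^ 3 + 2 * a ^ 3 * b ^ 2 * c ^ 2 * d + 2 * a ^ 3 * b ^ 2 * c * d ^ 2 + a ^ 3 * b ^ 2 * d ^ 3 + a ^ 3 * b * c ^ 3 * d + 2 * a ^ 3 * b * c ^ 2 * d ^ 2 + a ^ 3 * b * c * d ^ 3 + a ^ 3 * c ^ 3 * d ^ 2 + a ^ 3 * c ^ 2 * d ^ 3 + a ^ 2 * b ^ 3 * c ^ 3 + 2 * a ^ 2 * b ^ 3 * c ^ 2 * d + 2 * a ^ 2 * b ^ 3 * c * d ^ 2 + a ^ 2 * b ^ 3 * d ^ 3 + 2 * a ^ 2 * b ^ 2 * c ^ 3 * d + 3 * a ^ 2 * b ^ 2 * c ^ 2 * d ^ 2 + 2 * a ^ 2 * b ^ 2 * c * d ^ 3 + 2 * a ^ 2 * b * c ^ 3 * d ^ 2 + 2 * a ^ 2 * b * c ^ 2 * d ^ 3 + a ^ 2 * c ^ 3 * d ^ 3 + a * b ^ 3 * c ^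 3 * d + 2 * a * b ^ 3 * c ^ 2 * d ^ 2 + a * b ^ 3 * c * d ^ 3 + 2 * a * b ^ 2 * c ^ 3 * d ^ 2 + 2 * a * b ^ 2 * c ^ 2 * d ^ 3 + a * b * c ^ 3 * d ^ 3 + b ^ 3 * c ^ 3 * d ^ 2 + b ^ 3 * c ^ 2 * d ^ 3 + b ^ 2 * c ^ 3 * d ^ 3

private lemma ident4 (a b c d : ℝ) :
    a ^ 5 * ((c ^ 3 - b ^ 3) * (d ^ 3 - b ^ 3) * (d ^ 3 - c ^ 3))
      - b ^ 5 * ((c ^ 3 - a ^ 3) * (d ^ 3 - a ^ 3) * (d ^ 3 - c ^ 3))
      + c ^ 5 * ((b ^ 3 - a ^ 3) * (d ^ 3 - a ^ 3) * (d ^ 3 - b ^ 3))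
      - d ^ 5 * ((b ^ 3 - a ^ 3) * (c ^ 3 - a ^ 3) * (c ^ 3 - b ^ 3))
    = ((b - a) * (c - a) * (d - a) * (c - b) * (d - b) * (d - c)) * SS a b c d := by
  unfold SS
  ring

private lemma SS_lower {a b c d : ℝ} (h0 : 0 < a) (hab : a ≤ b) (hac : a ≤ c) (had : a ≤ d) :
    45 * a ^ 8 ≤ SS a b c d := by
  have h : SS a a a a = 45 * a ^ 8 := by unfold SS; ring
  have hb0 : 0 < b := lt_of_lt_of_le h0 hab
  have hc0 : 0 < c := lt_of_lt_of_le h0 hac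
  have hd0 : 0 < d := lt_of_lt_of_le h0 had
  rw [← h]
  unfold SS
  gcongr

private lemma SS_upper {a b c d : ℝ} (h0 : 0 < a) (hb0 : 0 < b) (hc0 : 0 < c) (hab : a ≤ d)
    (hbd : b ≤ d) (hcd : c ≤ d) : SS a b c d ≤ 45 * d ^ 8 := by
  have hd0 : 0 < d := lt_of_lt_of_le h0 hab
  have h : SS d d d d = 45 * d ^ 8 := by unfold SS; ring
  rw [← h]
  unfold SS
  gcongr

/-- one factor -/
private lemma factor {a d s u : ℝ} (h0 : 0 < a) (has : a ≤ s) (hsu : s ≤ u) (hud : u ≤ d) :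
    (u - s) * (3 * a ^ 2) ≤ u ^ 3 - s ^ 3 ∧ u ^ 3 - s ^ 3 ≤ (u - s) * (3 * d ^ 2) ∧ 0 ≤ u - s := by
  have hs : 0 < s := lt_of_lt_of_le h0 has
  have hu : 0 < u := lt_of_lt_of_le hs hsu
  have e : u ^ 3 - s ^ 3 = (u - s) * (u ^ 2 + u * s + s ^ 2) := by ring
  have hus : 0 ≤ u - s := by linarith
  have l1 : 3 * a ^ 2 ≤ u ^ 2 + u * s + s ^ 2 := by
    have i1 : a ^ 2 ≤ u ^ 2 := pow_le_pow_left₀ h0.le (has.trans hsu) 2
    have i2 : a ^ 2 ≤ s ^ 2 := pow_le_pow_left₀ h0.le has 2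
    have i3 : a * a ≤ u * s := mul_le_mul (has.trans hsu) has h0.le hu.le
    nlinarith
  have l2 : u ^ 2 + u * s + s ^ 2 ≤ 3 * d ^ 2 := by
    have i1 : u ^ 2 ≤ d ^ 2 := pow_le_pow_left₀ hu.le hud 2
    have i2 : s ^ 2 ≤ d ^ 2 := pow_le_pow_left₀ hs.le (hsu.trans hud) 2
    have i3 : u * s ≤ d * d := mul_le_mul hud (hsu.trans hud) hs.le (hu.le.trans hud)
    nlinarith
  refine ⟨?_, ?_, hus⟩
  · rw [e]; exact mul_le_mul_of_nonneg_left l1 hus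
  · rw [e]; exact mul_le_mul_of_nonneg_left l2 hus

private lemma four_bounds {a b c d : ℝ} (h0 : 0 < a) (hab : a ≤ b) (hbc : b ≤ c) (hcd : c ≤ d)
    (hd : d ^ 3 ≤ 2 * a ^ 3) :
    a ^ 4 * (((b - a) * (c - a) * (d - a) * (c - b) * (d - b) * (d - c)) * SS a b c d) ≤
      (b ^ 3 - a ^ 3) * (c ^ 3 - a ^ 3) * (d ^ 3 - a ^ 3) * (c ^ 3 - b ^ 3) * (d ^ 3 - b ^ 3)
        * (d ^ 3 - c ^ 3) ∧
    (b ^ 3 - a ^ 3) * (c ^ 3 - a ^ 3) * (d ^ 3 - a ^ 3) * (c ^ 3 - b ^ 3) * (d ^ 3 - b ^ 3)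
        * (d ^ 3 - c ^ 3) ≤
      260 * (a ^ 4 * (((b - a) * (c - a) * (d - a) * (c - b) * (d - b) * (d - c))
        * SS a b c d)) := by
  obtain ⟨l1, u1, n1⟩ := factor (d := d) h0 le_rfl hab (hbc.trans hcd)
  obtain ⟨l2, u2, n2⟩ := factor (d := d) h0 le_rfl (hab.trans hbc) hcd
  obtain ⟨l3, u3, n3⟩ := factor (d := d) h0 le_rfl (hab.trans (hbc.trans hcd)) le_rfl
  obtain ⟨l4, u4, n4⟩ := factor (d := d) h0 hab hbc hcd
  obtain ⟨l5, u5, n5⟩ := factor (d := d) h0 hab (hbc.trans hcd) le_rfl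
  obtain ⟨l6, u6, n6⟩ := factor (d := d) h0 (hab.trans hbc) hcd le_rfl
  have hd0 : 0 < d := lt_of_lt_of_le h0 (hab.trans (hbc.trans hcd))
  have ha2 : 0 < 3 * a ^ 2 := by positivity
  set P : ℝ := (b - a) * (c - a) * (d - a) * (c - b) * (d - b) * (d - c) with hP
  set V : ℝ := (b ^ 3 - a ^ 3) * (c ^ 3 - a ^ 3) * (d ^ 3 - a ^ 3) * (c ^ 3 - b ^ 3)
    * (d ^ 3 - b ^ 3) * (d ^ 3 - c ^ 3) with hV
  have hP0 : 0 ≤ P := by rw [hP]; positivity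
  have m1 : 0 ≤ b ^ 3 - a ^ 3 := le_trans (mul_nonneg n1 ha2.le) l1
  have m2 : 0 ≤ c ^ 3 - a ^ 3 := le_trans (mul_nonneg n2 ha2.le) l2
  have m3 : 0 ≤ d ^ 3 - a ^ 3 := le_trans (mul_nonneg n3 ha2.le) l3
  have m4 : 0 ≤ c ^ 3 - b ^ 3 := le_trans (mul_nonneg n4 ha2.le) l4
  have m5 : 0 ≤ d ^ 3 - b ^ 3 := le_trans (mul_nonneg n5 ha2.le) l5
  have m6 : 0 ≤ d ^ 3 - c ^ 3 := le_trans (mul_nonneg n6 ha2.le) l6
  have hlow : P * (3 * a ^ 2) ^ 6 ≤ V := by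
    have e : P * (3 * a ^ 2) ^ 6 = ((b - a) * (3 * a ^ 2)) * ((c - a) * (3 * a ^ 2))
        * ((d - a) * (3 * a ^ 2)) * ((c - b) * (3 * a ^ 2)) * ((d - b) * (3 * a ^ 2))
        * ((d - c) * (3 * a ^ 2)) := by rw [hP]; ring
    rw [e, hV]
    gcongr
  have hupp : V ≤ P * (3 * d ^ 2) ^ 6 := by
    have e : P * (3 * d ^ 2) ^ 6 = ((b - a) * (3 * d ^ 2)) * ((c - a) * (3 * d ^ 2))
        * ((d - a) * (3 * d ^ 2)) * ((c - b) * (3 * d ^ 2)) * ((d - b) * (3 * d ^ 2))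
        * ((d - c) * (3 * d ^ 2)) := by rw [hP]; ring
    rw [e, hV]
    gcongr
  have hV0 : 0 ≤ V := by rw [hV]; positivity
  have S1 := SS_lower h0 hab (hab.trans hbc) (hab.trans (hbc.trans hcd))
  have S2 := SS_upper h0 (lt_of_lt_of_le h0 hab) (lt_of_lt_of_le h0 (hab.trans hbc))
    (hab.trans (hbc.trans hcd)) (hbc.trans hcd) hcd
  set S : ℝ := SS a b c d with hS
  have hd2a : d ≤ 2 * a := by
    by_contra hcon
    have h1 : (2 * a) ^ 3 < d ^ 3 := pow_lt_pow_left₀ (not_le.1 hcon) (by positivity) (by norm_num)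
    have h2 : 0 < a ^ 3 := by positivity
    nlinarith
  have hd6 : d ^ 6 ≤ 4 * a ^ 6 := by
    calc d ^ 6 = (d ^ 3) ^ 2 := by ring
      _ ≤ (2 * a ^ 3) ^ 2 := pow_le_pow_left₀ (by positivity) hd 2
      _ = 4 * a ^ 6 := by ring
  have hd8 : d ^ 8 ≤ 16 * a ^ 8 := by
    calc d ^ 8 = d ^ 6 * d ^ 2 := by ring
      _ ≤ (4 * a ^ 6) * (2 * a) ^ 2 :=
          mul_le_mul hd6 (pow_le_pow_left₀ hd0.le hd2a 2) (by positivity) (by positivity)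
      _ = 16 * a ^ 8 := by ring
  have hd12 : d ^ 12 ≤ 16 * a ^ 12 := by
    calc d ^ 12 = (d ^ 6) ^ 2 := by ring
      _ ≤ (4 * a ^ 6) ^ 2 := pow_le_pow_left₀ (by positivity) hd6 2
      _ = 16 * a ^ 12 := by ring
  constructor
  · -- upper bound
    have h1 : P * S ≤ P * (720 * a ^ 8) := mul_le_mul_of_nonneg_left (by linarith) hP0
    have h2 : a ^ 4 * (P * S) ≤ a ^ 4 * (P * (720 * a ^ 8)) :=
      mul_le_mul_of_nonneg_left h1 (by positivity)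
    have h3 : a ^ 4 * (P * (720 * a ^ 8)) ≤ P * (3 * a ^ 2) ^ 6 := by
      have h4 : a ^ 4 * (P * (720 * a ^ 8)) = 720 * (P * a ^ 12) := by ring
      have h5 : P * (3 * a ^ 2) ^ 6 = 729 * (P * a ^ 12) := by ring
      have h6 : 0 ≤ P * a ^ 12 := by positivity
      rw [h4, h5]; linarith
    linarith
  · -- lower bound
    have h1 : P * (45 * a ^ 8) ≤ P * S := mul_le_mul_of_nonneg_left S1 hP0
    have h2 : a ^ 4 * (P * (45 * a ^ 8)) ≤ a ^ 4 * (P * S) :=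
      mul_le_mul_of_nonneg_left h1 (by positivity)
    have h3 : P * (3 * d ^ 2) ^ 6 ≤ 11664 * (P * a ^ 12) := by
      have h4 : P * (3 * d ^ 2) ^ 6 = 729 * (P * d ^ 12) := by ring
      have h5 : P * d ^ 12 ≤ P * (16 * a ^ 12) := mul_le_mul_of_nonneg_left hd12 hP0
      rw [h4]; linarith
    have h6 : a ^ 4 * (P * (45 * a ^ 8)) = 45 * (P * a ^ 12) := by ring
    have h7 : 0 ≤ P * a ^ 12 := by positivity
    rw [h6] at h2
    linarith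

/-- distance of `x` from `t ^ 5` when `x ^ 3` is near `t ^ 15` -/
private lemma near_root5 {x t T N : ℝ} (hx : 0 ≤ x) (hT : 0 ≤ T) (ht : 0 ≤ t) (hs : T ≤ t ^ 10)
    (h1 : x ^ 3 ≤ t ^ 15 + N) (h2 : t ^ 15 ≤ x ^ 3 + N) :
    (x - t ^ 5) * T ≤ N ∧ -((x - t ^ 5) * T) ≤ N := by
  have e : (x - t ^ 5) * (x ^ 2 + x * t ^ 5 + t ^ 10) = x ^ 3 - t ^ 15 := by ring
  have hx1 : 0 ≤ x ^ 2 + x * t ^ 5 := by positivity
  rcases le_total (t ^ 5) x with h | h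
  · have h3 : (x - t ^ 5) * T ≤ (x - t ^ 5) * (x ^ 2 + x * t ^ 5 + t ^ 10) :=
      mul_le_mul_of_nonneg_left (by linarith) (by linarith)
    have h4 : 0 ≤ (x - t ^ 5) * T := mul_nonneg (by linarith) hT
    constructor <;> linarith
  · have h3 : (t ^ 5 - x) * T ≤ (t ^ 5 - x) * (x ^ 2 + x * t ^ 5 + t ^ 10) :=
      mul_le_mul_of_nonneg_left (by linarith) (by linarith)
    have h4 : 0 ≤ (t ^ 5 - x) * T := mul_nonneg (by linarith) hT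
    have h5 : (t ^ 5 - x) * (x ^ 2 + x * t ^ 5 + t ^ 10) = t ^ 15 - x ^ 3 := by ring
    have h6 : (t ^ 5 - x) * T = -((x - t ^ 5) * T) := by ring
    constructor <;> linarith

/-- the product of the six differences of four integers -/
private lemma vdm_lower {y1 y2 y3 y4 : ℝ} (h12 : y1 + 1 ≤ y2) (h23 : y2 + 1 ≤ y3)
    (h34 : y3 + 1 ≤ y4) :
    (y4 - y1) ^ 3 ≤ 4 * ((y2 - y1) * (y3 - y1) * (y4 - y1) * (y3 - y2) * (y4 - y2) * (y4 - y3)) := by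
  set A := y4 - y1 with hA
  have hA3 : 3 ≤ A := by rw [hA]; linarith
  have e1 : A - 1 ≤ (y2 - y1) * (y4 - y2) := by
    have : 0 ≤ (y2 - y1 - 1) * (y4 - y2 - 1) := mul_nonneg (by linarith) (by linarith)
    rw [hA]; nlinarith
  have e2 : A - 1 ≤ (y3 - y1) * (y4 - y3) := by
    have : 0 ≤ (y3 - y1 - 1) * (y4 - y3 - 1) := mul_nonneg (by linarith) (by linarith)
    rw [hA]; nlinarith
  have e3 : (1 : ℝ) ≤ y3 - y2 := by linarith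
  have hA1 : 0 ≤ A - 1 := by linarith
  have e4 : (A - 1) * (A - 1) ≤ ((y2 - y1) * (y4 - y2)) * ((y3 - y1) * (y4 - y3)) :=
    mul_le_mul e1 e2 hA1 (hA1.trans e1)
  have e5 : A ^ 2 ≤ 4 * ((A - 1) * (A - 1)) := by nlinarith
  have e6 : 0 ≤ ((y2 - y1) * (y4 - y2)) * ((y3 - y1) * (y4 - y3)) :=
    mul_nonneg (hA1.trans e1) (hA1.trans e2)
  calc A ^ 3 = A * A ^ 2 := by ring
    _ ≤ A * (4 * ((A - 1) * (A - 1))) := mul_le_mul_of_nonneg_left e5 (by linarith)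
    _ ≤ A * (4 * (((y2 - y1) * (y4 - y2)) * ((y3 - y1) * (y4 - y3)))) :=
        mul_le_mul_of_nonneg_left (by linarith) (by linarith)
    _ = (4 * A * (((y2 - y1) * (y4 - y2)) * ((y3 - y1) * (y4 - y3)))) * 1 := by ring
    _ ≤ (4 * A * (((y2 - y1) * (y4 - y2)) * ((y3 - y1) * (y4 - y3)))) * (y3 - y2) :=
        mul_le_mul_of_nonneg_left e3 (mul_nonneg (by linarith) e6)
    _ = 4 * ((y2 - y1) * (y3 - y1) * A * (y3 - y2) * (y4 - y2) * (y4 - y3)) := by ring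

/-- no four near points close together -/
theorem four_points {N L y1 y2 y3 y4 x1 x2 x3 x4 : ℕ} (h12 : y1 < y2) (h23 : y2 < y3)
    (h34 : y3 < y4) (hL : y4 - y1 ≤ L) (hL18 : 8 * L ^ 18 ≤ y1 ^ 4) (hN : 4160 * N < y1 ^ 2)
    (a1 : x1 ^ 3 ≤ y1 ^ 5 + N) (b1 : y1 ^ 5 ≤ x1 ^ 3 + N)
    (a2 : x2 ^ 3 ≤ y2 ^ 5 + N) (b2 : y2 ^ 5 ≤ x2 ^ 3 + N)
    (a3 : x3 ^ 3 ≤ y3 ^ 5 + N) (b3 : y3 ^ 5 ≤ x3 ^ 3 + N)
    (a4 : x4 ^ 3 ≤ y4 ^ 5 + N) (b4 : y4 ^ 5 ≤ x4 ^ 3 + N) : False := by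
  have hy1 : 1 ≤ y1 := by
    rcases Nat.eq_zero_or_pos y1 with rfl | h
    · norm_num at hN
    · exact h
  have hL1 : L ≤ y1 := by
    by_contra hcon
    have h1 : y1 ^ 4 < L ^ 4 := Nat.pow_lt_pow_left (not_le.1 hcon) (by norm_num)
    have h2 : L ^ 4 ≤ L ^ 18 := Nat.pow_le_pow_right (by omega) (by norm_num)
    omega
  have root : ∀ y : ℕ, ∃ t : ℝ, 0 ≤ t ∧ t ^ 3 = y := by
    intro y
    refine ⟨(y : ℝ) ^ ((1 : ℝ) / 3), by positivity, ?_⟩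
    rw [← Real.rpow_natCast, ← Real.rpow_mul (by positivity)]
    norm_num
  obtain ⟨a, ha0, ea⟩ := root y1
  obtain ⟨b, hb0, eb⟩ := root y2
  obtain ⟨c, hc0, ec⟩ := root y3
  obtain ⟨d, hd0, ed⟩ := root y4
  have r1 : (1 : ℝ) ≤ y1 := by exact_mod_cast hy1
  have r12 : (y1 : ℝ) + 1 ≤ y2 := by exact_mod_cast h12
  have r23 : (y2 : ℝ) + 1 ≤ y3 := by exact_mod_cast h23
  have r34 : (y3 : ℝ) + 1 ≤ y4 := by exact_mod_cast h34
  have r41 : (y4 : ℝ) ≤ y1 + L := by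
    have : y4 ≤ y1 + L := by omega
    exact_mod_cast this
  have rL1 : (L : ℝ) ≤ y1 := by exact_mod_cast hL1
  have hap : 0 < a := by
    rcases ha0.lt_or_eq with h | h
    · exact h
    · exfalso
      rw [← h] at ea
      norm_num at ea
      linarith
  have mono : ∀ u v : ℝ, 0 ≤ v → u ^ 3 ≤ v ^ 3 → u ≤ v := by
    intro u v hv huv
    by_contra hcon
    have := pow_lt_pow_left₀ (not_le.1 hcon) hv (n := 3) (by norm_num)
    linarith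
  have hab : a ≤ b := mono _ _ hb0 (by rw [ea, eb]; linarith)
  have hbc : b ≤ c := mono _ _ hc0 (by rw [eb, ec]; linarith)
  have hcd : c ≤ d := mono _ _ hd0 (by rw [ec, ed]; linarith)
  have hda : d ^ 3 ≤ 2 * a ^ 3 := by rw [ea, ed]; linarith
  obtain ⟨B1, B2⟩ := four_bounds hap hab hbc hcd hda
  have key := ident4 a b c d
  rw [ea, eb, ec, ed] at B1 B2 key
  set F : ℝ := (b - a) * (c - a) * (d - a) * (c - b) * (d - b) * (d - c) * SS a b c d with hF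
  set V : ℝ := ((y2 : ℝ) - y1) * (y3 - y1) * (y4 - y1) * (y3 - y2) * (y4 - y2) * (y4 - y3) with hV
  have hVl := vdm_lower r12 r23 r34
  rw [← hV] at hVl
  set A : ℝ := (y4 : ℝ) - y1 with hA
  have hA3 : 3 ≤ A := by rw [hA]; linarith
  have hAL : A ≤ L := by rw [hA]; linarith
  set T : ℝ := a ^ 10 with hT
  have hT0 : 0 < T := by rw [hT]; positivity
  have p15 : ∀ (t : ℝ) (y : ℕ), t ^ 3 = y → t ^ 15 = (y : ℝ) ^ 5 := by
    intro t y h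
    rw [← h]; ring
  obtain ⟨u1, v1⟩ := near_root5 (x := x1) (t := a) (T := T) (N := N) (by positivity) hT0.le ha0 le_rfl
    (by rw [p15 _ _ ea]; exact_mod_cast a1) (by rw [p15 _ _ ea]; exact_mod_cast b1)
  obtain ⟨u2, v2⟩ := near_root5 (x := x2) (t := b) (T := T) (N := N) (by positivity) hT0.le hb0
    (by rw [hT]; gcongr) (by rw [p15 _ _ eb]; exact_mod_cast a2) (by rw [p15 _ _ eb]; exact_mod_cast b2)
  obtain ⟨u3, v3⟩ := near_root5 (x := x3) (t := c) (T := T) (N := N) (by positivity) hT0.le hc0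
    (by rw [hT]; gcongr; linarith) (by rw [p15 _ _ ec]; exact_mod_cast a3)
    (by rw [p15 _ _ ec]; exact_mod_cast b3)
  obtain ⟨u4, v4⟩ := near_root5 (x := x4) (t := d) (T := T) (N := N) (by positivity) hT0.le hd0
    (by rw [hT]; gcongr; linarith) (by rw [p15 _ _ ed]; exact_mod_cast a4)
    (by rw [p15 _ _ ed]; exact_mod_cast b4)
  -- the integer determinant
  set Δ : ℤ := (x1 : ℤ) * (((y3 : ℤ) - y2) * (y4 - y2) * (y4 - y3))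
      - x2 * (((y3 : ℤ) - y1) * (y4 - y1) * (y4 - y3))
      + x3 * (((y2 : ℤ) - y1) * (y4 - y1) * (y4 - y2))
      - x4 * (((y2 : ℤ) - y1) * (y3 - y1) * (y3 - y2)) with hΔ
  set W1 : ℝ := ((y3 : ℝ) - y2) * (y4 - y2) * (y4 - y3) with hW1
  set W2 : ℝ := ((y3 : ℝ) - y1) * (y4 - y1) * (y4 - y3) with hW2
  set W3 : ℝ := ((y2 : ℝ) - y1) * (y4 - y1) * (y4 - y2) with hW3
  set W4 : ℝ := ((y2 : ℝ) - y1) * (y3 - y1) * (y3 - y2) with hW4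
  have wb : ∀ p q r : ℝ, 0 ≤ p → p ≤ A → 0 ≤ q → q ≤ A → 0 ≤ r → r ≤ A →
      0 ≤ p * q * r ∧ p * q * r ≤ A ^ 3 := by
    intro p q r p0 p1 q0 q1 r0 r1
    refine ⟨by positivity, ?_⟩
    calc p * q * r ≤ A * A * A := by gcongr
      _ = A ^ 3 := by ring
  obtain ⟨w10, w11⟩ := wb ((y3 : ℝ) - y2) (y4 - y2) (y4 - y3) (by linarith) (by rw [hA]; linarith)
    (by linarith) (by rw [hA]; linarith) (by linarith) (by rw [hA]; linarith)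
  obtain ⟨w20, w21⟩ := wb ((y3 : ℝ) - y1) (y4 - y1) (y4 - y3) (by linarith) (by rw [hA]; linarith)
    (by linarith) (by rw [hA]) (by linarith) (by rw [hA]; linarith)
  obtain ⟨w30, w31⟩ := wb ((y2 : ℝ) - y1) (y4 - y1) (y4 - y2) (by linarith) (by rw [hA]; linarith)
    (by linarith) (by rw [hA]) (by linarith) (by rw [hA]; linarith)
  obtain ⟨w40, w41⟩ := wb ((y2 : ℝ) - y1) (y3 - y1) (y3 - y2) (by linarith) (by rw [hA]; linarith)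
    (by linarith) (by rw [hA]; linarith) (by linarith) (by rw [hA]; linarith)
  rw [← hW1] at w10 w11
  rw [← hW2] at w20 w21
  rw [← hW3] at w30 w31
  rw [← hW4] at w40 w41
  have hΔr : (Δ : ℝ) * T = F * T + (((x1 : ℝ) - a ^ 5) * T * W1 - ((x2 : ℝ) - b ^ 5) * T * W2
      + ((x3 : ℝ) - c ^ 5) * T * W3 - ((x4 : ℝ) - d ^ 5) * T * W4) := by
    have hk : F = a ^ 5 * W1 - b ^ 5 * W2 + c ^ 5 * W3 - d ^ 5 * W4 := by
      rw [← key]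
    rw [hk, hΔ, hW1, hW2, hW3, hW4]
    push_cast
    ring
  have hNr : (0 : ℝ) ≤ N := by positivity
  have eb : ∀ g W : ℝ, g ≤ N → -g ≤ N → 0 ≤ W → W ≤ A ^ 3 →
      g * W ≤ N * A ^ 3 ∧ -(g * W) ≤ N * A ^ 3 := by
    intro g W g1 g2 W0 W1
    constructor
    · calc g * W ≤ N * W := mul_le_mul_of_nonneg_right g1 W0
        _ ≤ N * A ^ 3 := mul_le_mul_of_nonneg_left W1 hNr
    · calc -(g * W) = (-g) * W := by ring
        _ ≤ N * W := mul_le_mul_of_nonneg_right g2 W0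
        _ ≤ N * A ^ 3 := mul_le_mul_of_nonneg_left W1 hNr
  obtain ⟨f1, g1⟩ := eb _ _ u1 v1 w10 w11
  obtain ⟨f2, g2⟩ := eb _ _ u2 v2 w20 w21
  obtain ⟨f3, g3⟩ := eb _ _ u3 v3 w30 w31
  obtain ⟨f4, g4⟩ := eb _ _ u4 v4 w40 w41
  have ha6 : a ^ 6 = (y1 : ℝ) ^ 2 := by rw [← ea]; ring
  have hN6 : 4160 * (N : ℝ) < a ^ 6 := by rw [ha6]; exact_mod_cast hN
  have ha4 : 0 < a ^ 4 := by positivity
  have hA3p : 0 < A ^ 3 := by positivity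
  rcases eq_or_ne Δ 0 with h0 | h0
  · rw [h0, Int.cast_zero, zero_mul] at hΔr
    have i1 : F * T ≤ 4 * (N * A ^ 3) := by linarith
    -- A ^ 3 ≤ 4 V ≤ 1040 a ^ 4 F
    have i2 : A ^ 3 ≤ 1040 * (a ^ 4 * F) := by linarith
    have i3 : a ^ 6 * A ^ 3 ≤ 1040 * (F * T) := by
      calc a ^ 6 * A ^ 3 ≤ a ^ 6 * (1040 * (a ^ 4 * F)) :=
            mul_le_mul_of_nonneg_left i2 (by positivity)
        _ = 1040 * (F * T) := by rw [hT]; ring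
    have i4 : a ^ 6 * A ^ 3 ≤ (4160 * N) * A ^ 3 := by linarith
    have i5 := le_of_mul_le_mul_right i4 hA3p
    linarith
  · have j1 : (1 : ℝ) ≤ |(Δ : ℝ)| := by
      have : (1 : ℤ) ≤ |Δ| := Int.one_le_abs h0
      exact_mod_cast this
    -- 2 L ^ 6 ≤ a ^ 4
    have j2 : 2 * (L : ℝ) ^ 6 ≤ a ^ 4 := by
      apply mono _ _ ha4.le
      calc (2 * (L : ℝ) ^ 6) ^ 3 = 8 * (L : ℝ) ^ 18 := by ring
        _ ≤ (y1 : ℝ) ^ 4 := by exact_mod_cast hL18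
        _ = (a ^ 4) ^ 3 := by rw [← ea]; ring
    have hAL6 : A ^ 6 ≤ (L : ℝ) ^ 6 := pow_le_pow_left₀ (by linarith) hAL 6
    have hVA : V ≤ A ^ 6 := by
      have e : V = W4 * ((y4 - y1) * (y4 - y2) * (y4 - y3)) := by rw [hV, hW4]; ring
      obtain ⟨z0, z1⟩ := wb ((y4 : ℝ) - y1) (y4 - y2) (y4 - y3) (by linarith) (by rw [hA])
        (by linarith) (by rw [hA]; linarith) (by linarith) (by rw [hA]; linarith)
      rw [e]
      calc W4 * ((y4 - y1) * (y4 - y2) * (y4 - y3)) ≤ A ^ 3 * A ^ 3 :=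
            mul_le_mul w41 z1 z0 hA3p.le
        _ = A ^ 6 := by ring
    have j3 : 2 * (a ^ 4 * F) ≤ a ^ 4 := by linarith
    have j4 : 2 * (F * T) ≤ T := by
      calc 2 * (F * T) = (2 * (a ^ 4 * F)) * a ^ 6 := by rw [hT]; ring
        _ ≤ a ^ 4 * a ^ 6 := mul_le_mul_of_nonneg_right j3 (by positivity)
        _ = T := by rw [hT]; ring
    -- the error
    have j5 : A ^ 3 ≤ a ^ 4 := by
      have k1 : (1 : ℝ) ≤ A ^ 3 := one_le_pow₀ (by linarith)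
      calc A ^ 3 = A ^ 3 * 1 := by ring
        _ ≤ A ^ 3 * A ^ 3 := mul_le_mul_of_nonneg_left k1 hA3p.le
        _ = A ^ 6 := by ring
        _ ≤ a ^ 4 := by
          have : 0 ≤ (L : ℝ) ^ 6 := by positivity
          linarith
    have j6 : 4 * (N * A ^ 3) ≤ T / 4 := by
      have k1 : N * A ^ 3 ≤ N * a ^ 4 := mul_le_mul_of_nonneg_left j5 hNr
      have k2 : 16 * (N * a ^ 4) ≤ a ^ 6 * a ^ 4 := by
        have := mul_le_mul_of_nonneg_right hN6.le ha4.le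
        have k3 : 0 ≤ (N : ℝ) * a ^ 4 := by positivity
        linarith
      have k4 : a ^ 6 * a ^ 4 = T := by rw [hT]; ring
      linarith
    have hF0 : 0 ≤ F := by
      have k1 : 0 ≤ a ^ 4 * F := by linarith
      by_contra hcon
      have := mul_neg_of_pos_of_neg ha4 (not_le.1 hcon)
      linarith
    have hFT : 0 ≤ F * T := mul_nonneg hF0 hT0.le
    have j7 : T ≤ |(Δ : ℝ)| * T := by
      calc T = 1 * T := by ring
        _ ≤ |(Δ : ℝ)| * T := mul_le_mul_of_nonneg_right j1 hT0.le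
    rcases abs_cases (Δ : ℝ) with ⟨h, _⟩ | ⟨h, _⟩
    · rw [h] at j7
      linarith
    · rw [h] at j7
      linarith

end PerfectPowerDiff.Fifth
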