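import Pool.Agent.Lib.MP_cb2e5b_nt.Fifth.Sets

/-!
Almost all `n ≡ 2 mod 4` have no representation `n = x ^ k - y ^ l` with
`x ^ k ≤ n ^ ((1 - ε) max (6, k, l))` and `x ^ k ≤ exp (n ^ c)`.
-/

set_option autoImplicit false

namespace PerfectPowerDiff.Fifth

open PerfectPowerDiff.Dens

theorem almost_all (ε : ℝ) (hε : 0 < ε) : ∃ c C δ : ℝ, 0 < c ∧ 0 < δ ∧ ∀ N : ℕ, 1 ≤ N →
    (({n : ℕ | n ≤ N ∧ n % 4 = 2 ∧ ∃ x y k l : ℕ, 0 < x ∧ 0 < y ∧ 2 ≤ k ∧ 2 ≤ l ∧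
      n + y ^ l = x ^ k ∧ ((x ^ k : ℕ) : ℝ) ≤ (n : ℝ) ^ ((1 - ε) * (max 6 (max k l) : ℕ)) ∧
        ((x ^ k : ℕ) : ℝ) ≤ Real.exp ((n : ℝ) ^ c)}.ncard : ℕ) : ℝ) ≤
      C * (N : ℝ) ^ (1 - δ) := by
  obtain ⟨t, ht⟩ := exists_nat_ge (1 / ε + 3)
  have hdiv : 0 ≤ 1 / ε := by positivity
  have ht3r : (3 : ℝ) ≤ t := by linarith
  have ht3 : 3 ≤ t := by exact_mod_cast ht3r
  have ht2 : 2 ≤ t := by omega
  have htε : 1 ≤ t * ε := by
    have h1 : 1 / ε ≤ t := by linarith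
    rwa [div_le_iff₀ hε] at h1
  have ht0 : (0 : ℝ) < t := by linarith
  obtain ⟨G, hG⟩ := div_bound t ht2
  set C0 : ℕ := 400 + (1612 * t + 3425240 * t * G ^ 2 + 17853780 * t * G) with hC0
  refine ⟨1 / (120 * t), C0 * 2 ^ (120 * t), 1 / (60 * t), by positivity, by positivity, ?_⟩
  intro N hN
  have hNr : (1 : ℝ) ≤ N := by exact_mod_cast hN
  have hN0 : (0 : ℝ) < N := by linarith
  set r : ℝ := (N : ℝ) ^ (1 / (120 * (t : ℝ))) with hr
  have hr1 : 1 ≤ r := Real.one_le_rpow hNr (by positivity)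
  set E : ℕ := ⌊r⌋₊ + 1 with hE
  have hE1 : r < E := by rw [hE]; push_cast; exact Nat.lt_floor_add_one r
  have hE2 : (E : ℝ) ≤ 2 * r := by
    rw [hE]
    push_cast
    have := Nat.floor_le (show 0 ≤ r by linarith)
    linarith
  have hE3 : 2 ≤ E := by
    have : (1 : ℝ) < E := by linarith
    have : 1 < E := by exact_mod_cast this
    omega
  have hrp : r ^ (120 * t) = N := by
    rw [hr, ← Real.rpow_natCast, ← Real.rpow_mul hN0.le]
    push_cast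
    rw [show 1 / (120 * (t : ℝ)) * (120 * t) = 1 by field_simp, Real.rpow_one]
  have hNE : (N : ℝ) ≤ (E : ℝ) ^ (120 * t) := by
    rw [← hrp]
    exact pow_le_pow_left₀ (by linarith) hE1.le _
  set D : ℕ := E ^ 4 with hD
  have hD2 : 2 ≤ D := by
    rw [hD]
    exact hE3.trans (Nat.le_self_pow (by norm_num) E)
  have hD30 : D ^ (30 * t) = E ^ (120 * t) := by rw [hD, ← pow_mul]; congr 1; ring
  have hND : N ≤ D ^ (30 * t) := by
    rw [hD30]
    exact_mod_cast hNE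
  set Λ : ℕ := 2 * E + 5 with hΛ
  have hDr : (1 : ℝ) ≤ D := by exact_mod_cast (by omega : 1 ≤ D)
  have hD0r : (0 : ℝ) < D := by linarith
  -- the inclusion
  have hsub : {n : ℕ | n ≤ N ∧ n % 4 = 2 ∧ ∃ x y k l : ℕ, 0 < x ∧ 0 < y ∧ 2 ≤ k ∧ 2 ≤ l ∧
      n + y ^ l = x ^ k ∧ ((x ^ k : ℕ) : ℝ) ≤ (n : ℝ) ^ ((1 - ε) * (max 6 (max k l) : ℕ)) ∧
        ((x ^ k : ℕ) : ℝ) ≤ Real.exp ((n : ℝ) ^ (1 / (120 * (t : ℝ))))} ⊆ (Bad3 D t Λ : Set ℕ) := by
    rintro n ⟨hnN, hn4, x, y, k, l, hx, hy, hk, hl, h, hlow, hexp⟩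
    rw [Finset.mem_coe]
    have hn2 : 2 ≤ n := by omega
    have hn2r : (2 : ℝ) ≤ n := by exact_mod_cast hn2
    set m : ℕ := max k l with hm
    set w : ℕ := max 6 m with hw
    set e : ℝ := (1 - ε) * (w : ℝ) with he
    have hnx : n < x ^ k := by
      have := Nat.one_le_pow l y hy
      omega
    have hnxr : (n : ℝ) < ((x ^ k : ℕ) : ℝ) := by exact_mod_cast hnx
    have he0 : 0 < e := by
      by_contra hcon
      have h1 : (n : ℝ) ^ e ≤ 1 :=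
        Real.rpow_le_one_of_one_le_of_nonpos (by linarith) (not_lt.1 hcon)
      linarith
    have hnD : n ≤ D ^ (30 * t) := hnN.trans hND
    have hnDr : (n : ℝ) ≤ (D : ℝ) ^ (30 * (t : ℝ)) := by
      have h1 : (n : ℝ) ≤ ((D ^ (30 * t) : ℕ) : ℝ) := by exact_mod_cast hnD
      refine h1.trans (le_of_eq ?_)
      push_cast
      rw [← Real.rpow_natCast]
      push_cast
      rfl
    have hxD : ((x ^ k : ℕ) : ℝ) ≤ (D : ℝ) ^ (30 * (t : ℝ) * e) := by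
      refine hlow.trans ?_
      rw [Real.rpow_mul hD0r.le]
      exact Real.rpow_le_rpow (by positivity) hnDr he0.le
    have hte : 30 * (t : ℝ) * e ≤ (30 * (t : ℝ) - 30) * w := by
      have h1 : (w : ℝ) * 1 ≤ w * (t * ε) := mul_le_mul_of_nonneg_left htε (by positivity)
      rw [he]
      linarith
    have conv : ∀ q : ℕ, 30 * (t : ℝ) * e ≤ (q : ℝ) → x ^ k ≤ D ^ q := by
      intro q hq
      have h1 : ((x ^ k : ℕ) : ℝ) ≤ (D : ℝ) ^ (q : ℝ) :=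
        hxD.trans (Real.rpow_le_rpow_of_exponent_le hDr hq)
      rw [Real.rpow_natCast] at h1
      exact_mod_cast h1
    refine mem_Bad3 hD2 ht3 (by omega) hnD hn4 hx hy hk hl h ?_ ?_ ?_ ?_
    · -- exponents
      have h1 : (n : ℝ) ^ (1 / (120 * (t : ℝ))) ≤ E := by
        refine le_trans ?_ hE1.le
        rw [hr]
        exact Real.rpow_le_rpow (by positivity) (by exact_mod_cast hnN) (by positivity)
      have h2 : ((x ^ k : ℕ) : ℝ) < (2 : ℝ) ^ Λ := by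
        calc ((x ^ k : ℕ) : ℝ) ≤ Real.exp ((n : ℝ) ^ (1 / (120 * (t : ℝ)))) := hexp
          _ ≤ Real.exp (E : ℝ) := Real.exp_le_exp.2 h1
          _ = (Real.exp 1) ^ E := by rw [← Real.exp_nat_mul, mul_one]
          _ ≤ ((2 : ℝ) ^ 2) ^ E := by
              apply pow_le_pow_left₀ (Real.exp_pos 1).le
              have := Real.exp_one_lt_d9
              norm_num
              linarith
          _ = (2 : ℝ) ^ (2 * E) := by rw [← pow_mul]
          _ < (2 : ℝ) ^ Λ := pow_lt_pow_right₀ (by norm_num) (by omega)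
      exact_mod_cast h2
    · intro h6
      rw [← hm] at h6 ⊢
      have hmax : w = m := by rw [hw]; exact max_eq_right h6
      rw [hmax] at hte
      rw [← pow_mul]
      apply conv
      have h8 : 1 ≤ 30 * t := by omega
      push_cast [Nat.cast_sub h8]
      have h9 : (0 : ℝ) ≤ m := by positivity
      linarith
    · intro h5
      rw [← hm] at h5
      have hmax : w = 6 := by rw [hw]; exact max_eq_left (by omega)
      rw [hmax] at hte
      rw [← pow_mul]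
      apply conv
      have h6 : 18 ≤ 36 * t := by omega
      push_cast [Nat.cast_sub h6] at hte ⊢
      linarith
    · intro h5
      rw [← hm] at h5
      have hmax : w = 6 := by rw [hw]; exact max_eq_left (by omega)
      rw [hmax] at hte
      rw [← pow_mul]
      apply conv
      have h6 : 28 ≤ 60 * t := by omega
      push_cast [Nat.cast_sub h6] at hte ⊢
      linarith
  have hcard : {n : ℕ | n ≤ N ∧ n % 4 = 2 ∧ ∃ x y k l : ℕ, 0 < x ∧ 0 < y ∧ 2 ≤ k ∧ 2 ≤ l ∧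
      n + y ^ l = x ^ k ∧ ((x ^ k : ℕ) : ℝ) ≤ (n : ℝ) ^ ((1 - ε) * (max 6 (max k l) : ℕ)) ∧
        ((x ^ k : ℕ) : ℝ) ≤ Real.exp ((n : ℝ) ^ (1 / (120 * (t : ℝ))))}.ncard ≤
      (16 * Λ ^ 2 + (1612 * t + 3425240 * t * G ^ 2 + 17853780 * t * G)) * D ^ (30 * t - 1) := by
    refine (Set.ncard_le_ncard hsub (Finset.finite_toSet _)).trans ?_
    rw [Set.ncard_coe_finset]
    exact card_Bad3 hD2 ht3 (fun T hT => hG D T hD2 hT)
  -- the final bound
  have hΛE : Λ ≤ 5 * E := by omega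
  have hnat : (16 * Λ ^ 2 + (1612 * t + 3425240 * t * G ^ 2 + 17853780 * t * G)) * D ^ (30 * t - 1) ≤
      C0 * E ^ (120 * t - 2) := by
    have h1 : 16 * Λ ^ 2 + (1612 * t + 3425240 * t * G ^ 2 + 17853780 * t * G) ≤ C0 * E ^ 2 := by
      have h2 : Λ ^ 2 ≤ (5 * E) ^ 2 := Nat.pow_le_pow_left hΛE 2
      have h3 : 1 ≤ E ^ 2 := Nat.one_le_pow _ _ (by omega)
      calc 16 * Λ ^ 2 + (1612 * t + 3425240 * t * G ^ 2 + 17853780 * t * G)
          ≤ 16 * (5 * E) ^ 2 +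
              (1612 * t + 3425240 * t * G ^ 2 + 17853780 * t * G) * E ^ 2 :=
            Nat.add_le_add (Nat.mul_le_mul_left _ h2) (Nat.le_mul_of_pos_right _ h3)
        _ = C0 * E ^ 2 := by rw [hC0]; ring
    have h4 : D ^ (30 * t - 1) = E ^ (4 * (30 * t - 1)) := by rw [hD, ← pow_mul]
    calc (16 * Λ ^ 2 + (1612 * t + 3425240 * t * G ^ 2 + 17853780 * t * G)) * D ^ (30 * t - 1)
        ≤ (C0 * E ^ 2) * E ^ (4 * (30 * t - 1)) := by
          rw [h4]; exact Nat.mul_le_mul_right _ h1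
      _ = C0 * E ^ (2 + 4 * (30 * t - 1)) := by rw [pow_add]; ring
      _ = C0 * E ^ (120 * t - 2) := by congr 2; omega
  have hreal : (E : ℝ) ^ (120 * t - 2) ≤ 2 ^ (120 * t) * (N : ℝ) ^ (1 - 1 / (60 * (t : ℝ))) := by
    have h1 : (E : ℝ) ^ (120 * t - 2) ≤ (2 * r) ^ (120 * t - 2) :=
      pow_le_pow_left₀ (by positivity) hE2 _
    refine h1.trans ?_
    rw [mul_pow]
    have h2 : (2 : ℝ) ^ (120 * t - 2) ≤ 2 ^ (120 * t) :=
      pow_le_pow_right₀ (by norm_num) (by omega)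
    have h3 : r ^ (120 * t - 2) = (N : ℝ) ^ (1 - 1 / (60 * (t : ℝ))) := by
      rw [hr, ← Real.rpow_natCast, ← Real.rpow_mul hN0.le]
      congr 1
      have h6 : 2 ≤ 120 * t := by omega
      push_cast [Nat.cast_sub h6]
      field_simp
      ring
    rw [h3]
    exact mul_le_mul_of_nonneg_right h2 (by positivity)
  calc (({n : ℕ | n ≤ N ∧ n % 4 = 2 ∧ ∃ x y k l : ℕ, 0 < x ∧ 0 < y ∧ 2 ≤ k ∧ 2 ≤ l ∧
      n + y ^ l = x ^ k ∧ ((x ^ k : ℕ) : ℝ) ≤ (n : ℝ) ^ ((1 - ε) * (max 6 (max k l) : ℕ)) ∧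
        ((x ^ k : ℕ) : ℝ) ≤ Real.exp ((n : ℝ) ^ (1 / (120 * (t : ℝ))))}.ncard : ℕ) : ℝ)
      ≤ ((C0 * E ^ (120 * t - 2) : ℕ) : ℝ) := by exact_mod_cast hcard.trans hnat
    _ = (C0 : ℝ) * (E : ℝ) ^ (120 * t - 2) := by push_cast; ring
    _ ≤ (C0 : ℝ) * (2 ^ (120 * t) * (N : ℝ) ^ (1 - 1 / (60 * (t : ℝ)))) :=
        mul_le_mul_of_nonneg_left hreal (by positivity)
    _ = (C0 : ℝ) * 2 ^ (120 * t) * (N : ℝ) ^ (1 - 1 / (60 * (t : ℝ))) := by ring

end PerfectPowerDiff.Fifth
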