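import Mathlib

/-!
A point `(y, x)` near the curve `x ^ 2 = y ^ 5` and a rational approximation `a / q` of the square
root of `y`: with `Z = q ^ 2 y - a ^ 2` the integer `5 Z ^ 3 + c` is divisible by `a` for a small `c`.
-/

set_option autoImplicit false

namespace PerfectPowerDiff.Fifth

/-- the real estimate -/
private lemma real_bound5 {a Z m g P : ℝ} (ha : 0 < a) (hZ : 4 * |Z| ≤ a ^ 2)
    (hx : 0 ≤ 8 * a ^ 5 + 20 * a ^ 3 * Z + 15 * a * Z ^ 2 + m)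
    (hid : 2 * (8 * a ^ 5 + 20 * a ^ 3 * Z + 15 * a * Z ^ 2) * m + m ^ 2
      - 40 * a ^ 4 * Z ^ 3 - 95 * a ^ 2 * Z ^ 4 - 64 * Z ^ 5 = g)
    (hg : |g| ≤ 64 * P) (hP : P ≤ a ^ 10) :
    a ^ 4 * |2 * a * m - 5 * Z ^ 3| ≤ 162 * (a ^ 2 * |Z| ^ 4 + P) := by
  have hP0 : 0 ≤ P := by
    have := abs_nonneg g
    linarith
  set z : ℝ := |Z| with hz
  have hz0 : 0 ≤ z := abs_nonneg Z
  have hz2 : Z ^ 2 = z ^ 2 := (sq_abs Z).symm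
  have hz4 : Z ^ 4 = z ^ 4 := by
    calc Z ^ 4 = (Z ^ 2) ^ 2 := by ring
      _ = (z ^ 2) ^ 2 := by rw [hz2]
      _ = z ^ 4 := by ring
  have hz3 : |Z ^ 3| = z ^ 3 := by rw [abs_pow]
  have hz5 : |Z ^ 5| = z ^ 5 := by rw [abs_pow]
  have hZ1 : -z ≤ Z := neg_abs_le Z
  have hZ2 : Z ≤ z := le_abs_self Z
  have ha2 : 0 < a ^ 2 := by positivity
  have ha3 : 0 < a ^ 3 := by positivity
  have ha5 : 0 < a ^ 5 := by positivity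
  set S : ℝ := 8 * a ^ 5 + 20 * a ^ 3 * Z + 15 * a * Z ^ 2 with hS
  have hSa : 3 * a ^ 5 ≤ S := by
    have h1 : -(20 * a ^ 3 * z) ≤ 20 * a ^ 3 * Z := by
      have := mul_le_mul_of_nonneg_left hZ1 (by positivity : 0 ≤ 20 * a ^ 3)
      linarith
    have h2 : 20 * a ^ 3 * z ≤ 5 * a ^ 5 := by
      have := mul_le_mul_of_nonneg_left hZ (by positivity : 0 ≤ 5 * a ^ 3)
      calc 20 * a ^ 3 * z = 5 * a ^ 3 * (4 * z) := by ring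
        _ ≤ 5 * a ^ 3 * a ^ 2 := this
        _ = 5 * a ^ 5 := by ring
    have h3 : 0 ≤ 15 * a * Z ^ 2 := by positivity
    rw [hS]
    linarith
  have hWa : 3 * a ^ 5 ≤ 2 * S + m := by linarith
  have hWm : m * (2 * S + m) = 40 * a ^ 4 * Z ^ 3 + 95 * a ^ 2 * Z ^ 4 + 64 * Z ^ 5 + g := by
    linarith
  -- `4 z ≤ a ^ 2` times powers of z
  have q1 : 4 * (a ^ 2 * z ^ 4) ≤ a ^ 4 * z ^ 3 := by
    have := mul_le_mul_of_nonneg_right hZ (by positivity : 0 ≤ a ^ 2 * z ^ 3)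
    calc 4 * (a ^ 2 * z ^ 4) = 4 * z * (a ^ 2 * z ^ 3) := by ring
      _ ≤ a ^ 2 * (a ^ 2 * z ^ 3) := this
      _ = a ^ 4 * z ^ 3 := by ring
  have q2 : 4 * z ^ 5 ≤ a ^ 2 * z ^ 4 := by
    have := mul_le_mul_of_nonneg_right hZ (by positivity : 0 ≤ z ^ 4)
    calc 4 * z ^ 5 = 4 * z * z ^ 4 := by ring
      _ ≤ a ^ 2 * z ^ 4 := this
  -- the size of `m`
  have hm1 : 3 * (a ^ 5 * |m|) ≤ 68 * (a ^ 4 * z ^ 3) + 64 * P := by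
    have hW0 : 0 < 2 * S + m := lt_of_lt_of_le (by positivity) hWa
    have h1 : |m| * (2 * S + m) =
        |40 * a ^ 4 * Z ^ 3 + 95 * a ^ 2 * Z ^ 4 + 64 * Z ^ 5 + g| := by
      rw [← hWm, abs_mul, abs_of_pos hW0]
    have h2 : |40 * a ^ 4 * Z ^ 3 + 95 * a ^ 2 * Z ^ 4 + 64 * Z ^ 5 + g| ≤
        40 * (a ^ 4 * z ^ 3) + 95 * (a ^ 2 * z ^ 4) + 64 * z ^ 5 + 64 * P := by
      have i1 := abs_add_le (40 * a ^ 4 * Z ^ 3 + 95 * a ^ 2 * Z ^ 4 + 64 * Z ^ 5) g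
      have i2 := abs_add_le (40 * a ^ 4 * Z ^ 3 + 95 * a ^ 2 * Z ^ 4) (64 * Z ^ 5)
      have i3 := abs_add_le (40 * a ^ 4 * Z ^ 3) (95 * a ^ 2 * Z ^ 4)
      have i4 : |40 * a ^ 4 * Z ^ 3| = 40 * (a ^ 4 * z ^ 3) := by
        rw [abs_mul, hz3, abs_of_pos (by positivity : (0 : ℝ) < 40 * a ^ 4)]; ring
      have i5 : |95 * a ^ 2 * Z ^ 4| = 95 * (a ^ 2 * z ^ 4) := by
        rw [abs_mul, abs_of_pos (by positivity : (0 : ℝ) < 95 * a ^ 2), hz4,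
          abs_of_nonneg (by positivity : 0 ≤ z ^ 4)]; ring
      have i6 : |64 * Z ^ 5| = 64 * z ^ 5 := by
        rw [abs_mul, hz5]; norm_num
      linarith
    have h4 : 3 * (a ^ 5 * |m|) ≤ |m| * (2 * S + m) := by
      calc 3 * (a ^ 5 * |m|) = |m| * (3 * a ^ 5) := by ring
        _ ≤ |m| * (2 * S + m) := mul_le_mul_of_nonneg_left hWa (abs_nonneg m)
    have h5 : 0 ≤ a ^ 4 * z ^ 3 := by positivity
    linarith
  have hm2 : a ^ 5 * |m| ≤ 23 * (a ^ 4 * z ^ 3) + 22 * P := by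
    have : 0 ≤ a ^ 4 * z ^ 3 := by positivity
    linarith
  have hc : 8 * (a ^ 4 * (2 * a * m - 5 * Z ^ 3)) =
      95 * a ^ 2 * Z ^ 4 + 64 * Z ^ 5 + g - 40 * a ^ 3 * Z * m - 30 * a * Z ^ 2 * m - m ^ 2 := by
    rw [← hid, hS]; ring
  -- the three terms
  have t1 : 40 * (a ^ 3 * z * |m|) ≤ 920 * (a ^ 2 * z ^ 4) + 220 * P := by
    have h1 : a ^ 2 * (40 * (a ^ 3 * z * |m|)) ≤ a ^ 2 * (920 * (a ^ 2 * z ^ 4) + 220 * P) := by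
      calc a ^ 2 * (40 * (a ^ 3 * z * |m|)) = 40 * z * (a ^ 5 * |m|) := by ring
        _ ≤ 40 * z * (23 * (a ^ 4 * z ^ 3) + 22 * P) :=
            mul_le_mul_of_nonneg_left hm2 (by positivity)
        _ = 920 * (a ^ 4 * z ^ 4) + 220 * ((4 * z) * P) := by ring
        _ ≤ 920 * (a ^ 4 * z ^ 4) + 220 * (a ^ 2 * P) := by
            have := mul_le_mul_of_nonneg_right hZ hP0
            linarith
        _ = a ^ 2 * (920 * (a ^ 2 * z ^ 4) + 220 * P) := by ring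
    exact le_of_mul_le_mul_left h1 ha2
  have t2 : 30 * (a * z ^ 2 * |m|) ≤ 173 * (a ^ 2 * z ^ 4) + 42 * P := by
    have h1 : 4 * (a * z ^ 2 * |m|) ≤ a ^ 3 * z * |m| := by
      have := mul_le_mul_of_nonneg_right hZ (by positivity : 0 ≤ a * z * |m|)
      calc 4 * (a * z ^ 2 * |m|) = 4 * z * (a * z * |m|) := by ring
        _ ≤ a ^ 2 * (a * z * |m|) := this
        _ = a ^ 3 * z * |m| := by ring
    have h2 : 0 ≤ a ^ 2 * z ^ 4 := by positivity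
    linarith
  have t3 : m ^ 2 ≤ 67 * (a ^ 2 * z ^ 4) + 968 * P := by
    have ha10 : 0 < a ^ 10 := by positivity
    have h1 : a ^ 10 * m ^ 2 ≤ a ^ 10 * (67 * (a ^ 2 * z ^ 4) + 968 * P) := by
      have h2 : (a ^ 5 * |m|) ^ 2 ≤ (23 * (a ^ 4 * z ^ 3) + 22 * P) ^ 2 :=
        pow_le_pow_left₀ (by positivity) hm2 2
      have h3 : (a ^ 5 * |m|) ^ 2 = a ^ 10 * m ^ 2 := by rw [mul_pow, sq_abs]; ring
      have h4 : (23 * (a ^ 4 * z ^ 3) + 22 * P) ^ 2 ≤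
          1058 * (a ^ 4 * z ^ 3) ^ 2 + 968 * P ^ 2 := by
        have := sq_nonneg (23 * (a ^ 4 * z ^ 3) - 22 * P)
        linarith
      have h5 : 16 * (a ^ 4 * z ^ 3) ^ 2 ≤ a ^ 12 * z ^ 4 := by
        have h6 : (4 * z) ^ 2 ≤ (a ^ 2) ^ 2 := pow_le_pow_left₀ (by positivity) hZ 2
        calc 16 * (a ^ 4 * z ^ 3) ^ 2 = (4 * z) ^ 2 * (a ^ 8 * z ^ 4) := by ring
          _ ≤ (a ^ 2) ^ 2 * (a ^ 8 * z ^ 4) := mul_le_mul_of_nonneg_right h6 (by positivity)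
          _ = a ^ 12 * z ^ 4 := by ring
      have h7 : P * P ≤ a ^ 10 * P := mul_le_mul_of_nonneg_right hP hP0
      have h8 : 0 ≤ a ^ 12 * z ^ 4 := by positivity
      have h9 : a ^ 10 * (67 * (a ^ 2 * z ^ 4) + 968 * P) =
          67 * (a ^ 12 * z ^ 4) + 968 * (a ^ 10 * P) := by ring
      rw [← h3, h9]
      have h10 : P ^ 2 = P * P := by ring
      linarith
    exact le_of_mul_le_mul_left h1 ha10
  have t4 : 8 * (a ^ 4 * |2 * a * m - 5 * Z ^ 3|) ≤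
      95 * (a ^ 2 * z ^ 4) + 64 * z ^ 5 + 64 * P + 40 * (a ^ 3 * z * |m|)
        + 30 * (a * z ^ 2 * |m|) + m ^ 2 := by
    have e1 : 8 * (a ^ 4 * |2 * a * m - 5 * Z ^ 3|) =
        |8 * (a ^ 4 * (2 * a * m - 5 * Z ^ 3))| := by
      rw [abs_mul, abs_mul, abs_of_pos (by norm_num : (0 : ℝ) < 8),
        abs_of_pos (by positivity : (0 : ℝ) < a ^ 4)]
    rw [e1, hc]
    have i1 : |40 * a ^ 3 * Z * m| = 40 * (a ^ 3 * z * |m|) := by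
      rw [abs_mul, abs_mul, abs_of_pos (by positivity : (0 : ℝ) < 40 * a ^ 3)]; ring
    have i2 : |30 * a * Z ^ 2 * m| = 30 * (a * z ^ 2 * |m|) := by
      rw [abs_mul, abs_mul, abs_of_pos (by positivity : (0 : ℝ) < 30 * a), hz2,
        abs_of_nonneg (by positivity : 0 ≤ z ^ 2)]; ring
    have i3 : |64 * Z ^ 5| = 64 * z ^ 5 := by
      rw [abs_mul, hz5]; norm_num
    have i4 : 95 * a ^ 2 * Z ^ 4 = 95 * (a ^ 2 * z ^ 4) := by rw [hz4]; ring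
    have i5 := sq_nonneg m
    have i6 : 0 ≤ a ^ 2 * z ^ 4 := by positivity
    rw [i4]
    obtain ⟨j1, j2⟩ := abs_le.1 i1.le
    obtain ⟨j3, j4⟩ := abs_le.1 i2.le
    obtain ⟨j5, j6⟩ := abs_le.1 i3.le
    obtain ⟨j7, j8⟩ := abs_le.1 hg
    rw [abs_le]
    constructor <;> linarith
  have i7 : 0 ≤ a ^ 2 * z ^ 4 := by positivity
  linarith

/-- the parametrization of a near point -/
theorem near_param5 {N Q y x : ℕ} (hQ : 0 < Q) (hxy : x ^ 2 ≠ y ^ 5)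
    (h1 : x ^ 2 ≤ y ^ 5 + N) (h2 : y ^ 5 ≤ x ^ 2 + N) (hy : 576 ≤ y) (hyN : 16 * N < y ^ 2) :
    ∃ q a : ℕ, ∃ Z c : ℤ, 0 < q ∧ q ≤ Q ∧ 0 < a ∧ (q : ℤ) ^ 2 * y = a ^ 2 + Z ∧
      Z ^ 2 * Q ^ 2 ≤ 9 * q ^ 2 * y ∧ ((q : ℤ) ^ 2) ∣ c - Z ^ 3 ∧ (a : ℤ) ∣ 5 * Z ^ 3 + c ∧
      5 * Z ^ 3 + c ≠ 0 ∧
      ((q : ℤ) ^ 2 * y) ^ 2 * |c| ≤ 1296 * ((q : ℤ) ^ 2 * y * |Z| ^ 4 + q ^ 10 * N) := by
  obtain ⟨s, hs0, hsy⟩ : ∃ s : ℝ, 0 ≤ s ∧ s ^ 2 = y := ⟨√y, by positivity, Real.sq_sqrt (by positivity)⟩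
  have hyr : (576 : ℝ) ≤ y := by exact_mod_cast hy
  have hs24 : 24 ≤ s := by
    apply le_of_sq_le_sq _ hs0
    rw [hsy]; linarith
  obtain ⟨r, hr, hrQ⟩ := Real.exists_rat_abs_sub_le_and_den_le s hQ
  set q : ℕ := r.den with hq
  have hq0 : 0 < q := r.den_pos
  have hq1 : (1 : ℝ) ≤ q := by exact_mod_cast hq0
  have hq0r : (0 : ℝ) < q := by linarith
  have hQ1 : (1 : ℝ) ≤ Q := by exact_mod_cast hQ
  have hrr : (r : ℝ) * q = r.num := by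
    rw [hq]
    have := Rat.mul_den_eq_num r
    exact_mod_cast this
  -- `q s - a`
  have hE : |q * s - r.num| ≤ 1 / (Q + 1) := by
    have e : (q : ℝ) * s - r.num = q * (s - r) := by rw [← hrr]; ring
    rw [e, abs_mul, abs_of_pos hq0r]
    calc (q : ℝ) * |s - r| ≤ q * (1 / ((Q + 1) * q)) := mul_le_mul_of_nonneg_left hr hq0r.le
      _ = 1 / (Q + 1) := by field_simp
  have hE2 : |q * s - r.num| * Q ≤ 1 := by
    calc |q * s - r.num| * Q ≤ 1 / (Q + 1) * Q := mul_le_mul_of_nonneg_right hE (by positivity)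
      _ ≤ 1 := by
          rw [div_mul_eq_mul_div, div_le_one (by positivity)]
          linarith
  have hE3 : |q * s - r.num| ≤ 1 / 2 := by
    refine hE.trans ?_
    apply one_div_le_one_div_of_le (by norm_num)
    linarith
  have hqs : 24 ≤ q * s := by
    calc (24 : ℝ) ≤ 1 * s := by linarith
      _ ≤ q * s := mul_le_mul_of_nonneg_right hq1 hs0
  obtain ⟨g1, g2⟩ := abs_le.1 hE3
  have hnum : 0 < r.num := by
    have : (0 : ℝ) < r.num := by linarith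
    exact_mod_cast this
  obtain ⟨a, ha⟩ : ∃ a : ℕ, (a : ℤ) = r.num := ⟨r.num.toNat, Int.toNat_of_nonneg hnum.le⟩
  have har : (r.num : ℝ) = a := by rw [← ha]; norm_num
  rw [har] at hE2 g1 g2
  have ha0 : 0 < a := by omega
  have ha0r : (0 : ℝ) < a := by exact_mod_cast ha0
  have hcop : Nat.Coprime a q := by
    have h3 := r.reduced
    rw [← ha, Int.natAbs_natCast] at h3
    exact h3
  -- the integers
  set Z : ℤ := (q : ℤ) ^ 2 * y - (a : ℤ) ^ 2 with hZ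
  set m : ℤ := 8 * (q : ℤ) ^ 5 * x - 8 * (a : ℤ) ^ 5 - 20 * (a : ℤ) ^ 3 * Z - 15 * a * Z ^ 2 with hm
  have hZr : (Z : ℝ) = (q * s - a) * (q * s + a) := by
    rw [hZ]
    push_cast
    rw [← hsy]
    ring
  have hqsa : q * s + a ≤ 3 * (q * s) := by linarith
  have hZabs : |(Z : ℝ)| = |q * s - a| * (q * s + a) := by
    rw [hZr, abs_mul, abs_of_pos (by linarith : (0 : ℝ) < q * s + a)]
  have hZQ : |(Z : ℝ)| * Q ≤ 3 * (q * s) := by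
    calc |(Z : ℝ)| * Q = (|q * s - a| * Q) * (q * s + a) := by rw [hZabs]; ring
      _ ≤ 1 * (q * s + a) := mul_le_mul_of_nonneg_right hE2 (by linarith)
      _ ≤ 3 * (q * s) := by linarith
  have hZh : |(Z : ℝ)| ≤ 1 / 2 * (3 * (q * s)) := by
    rw [hZabs]
    have hE4 : |(q : ℝ) * s - a| ≤ 1 / 2 := abs_le.2 ⟨g1, g2⟩
    exact mul_le_mul hE4 hqsa (by linarith) (by norm_num)
  have ha34 : 3 / 4 * (q * s) ≤ a := by linarith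
  have ha54 : a ≤ 5 / 4 * (q * s) := by linarith
  have ha2 : 9 / 16 * (q * s) ^ 2 ≤ (a : ℝ) ^ 2 := by
    calc 9 / 16 * (q * s) ^ 2 = (3 / 4 * (q * s)) ^ 2 := by ring
      _ ≤ (a : ℝ) ^ 2 := pow_le_pow_left₀ (by positivity) ha34 2
  have ha2' : (a : ℝ) ^ 2 ≤ 25 / 16 * (q * s) ^ 2 := by
    calc (a : ℝ) ^ 2 ≤ (5 / 4 * (q * s)) ^ 2 := pow_le_pow_left₀ (by positivity) ha54 2
      _ = 25 / 16 * (q * s) ^ 2 := by ring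
  have hqsq : (q * s) ^ 2 = (q : ℝ) ^ 2 * y := by rw [mul_pow, hsy]
  have hqs0 := sq_nonneg ((q : ℝ) * s)
  have hay : (q : ℝ) ^ 2 * y ≤ 2 * (a : ℝ) ^ 2 := by
    rw [← hqsq]
    linarith
  have hay' : (a : ℝ) ^ 2 ≤ 2 * ((q : ℝ) ^ 2 * y) := by
    rw [← hqsq]
    linarith
  have hZa : 4 * |(Z : ℝ)| ≤ (a : ℝ) ^ 2 := by
    have h24 : 24 * (q * s) ≤ (q * s) ^ 2 := by
      rw [sq]
      exact mul_le_mul_of_nonneg_right hqs (by linarith)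
    linarith
  -- the identity
  have hidZ : 2 * (8 * (a : ℤ) ^ 5 + 20 * (a : ℤ) ^ 3 * Z + 15 * a * Z ^ 2) * m + m ^ 2
      - 40 * (a : ℤ) ^ 4 * Z ^ 3 - 95 * (a : ℤ) ^ 2 * Z ^ 4 - 64 * Z ^ 5
      = 64 * (q : ℤ) ^ 10 * ((x : ℤ) ^ 2 - (y : ℤ) ^ 5) := by
    rw [hm, hZ]
    ring
  have hid : 2 * (8 * (a : ℝ) ^ 5 + 20 * (a : ℝ) ^ 3 * Z + 15 * a * (Z : ℝ) ^ 2) * m + (m : ℝ) ^ 2
      - 40 * (a : ℝ) ^ 4 * (Z : ℝ) ^ 3 - 95 * (a : ℝ) ^ 2 * (Z : ℝ) ^ 4 - 64 * (Z : ℝ) ^ 5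
      = 64 * (q : ℝ) ^ 10 * ((x : ℝ) ^ 2 - (y : ℝ) ^ 5) := by
    exact_mod_cast hidZ
  have hn' : |(x : ℝ) ^ 2 - (y : ℝ) ^ 5| ≤ N := by
    have i1 : (x : ℝ) ^ 2 ≤ (y : ℝ) ^ 5 + N := by exact_mod_cast h1
    have i2 : (y : ℝ) ^ 5 ≤ (x : ℝ) ^ 2 + N := by exact_mod_cast h2
    rw [abs_le]
    constructor <;> linarith
  have hNr : (0 : ℝ) ≤ N := by positivity
  have hNy : 16 * (N : ℝ) < (y : ℝ) ^ 2 := by exact_mod_cast hyN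
  have hPa : (q : ℝ) ^ 10 * N ≤ (a : ℝ) ^ 10 := by
    have i1 : ((q : ℝ) ^ 2 * y) ^ 5 ≤ (2 * (a : ℝ) ^ 2) ^ 5 :=
      pow_le_pow_left₀ (by positivity) hay 5
    have i2 : 32 * (N : ℝ) ≤ (y : ℝ) ^ 5 := by
      have k1 : (2 : ℝ) ≤ (y : ℝ) ^ 3 := by
        calc (2 : ℝ) ≤ 576 ^ 3 := by norm_num
          _ ≤ (y : ℝ) ^ 3 := pow_le_pow_left₀ (by norm_num) hyr 3
      calc 32 * (N : ℝ) ≤ 2 * (y : ℝ) ^ 2 := by linarith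
        _ ≤ (y : ℝ) ^ 3 * (y : ℝ) ^ 2 := mul_le_mul_of_nonneg_right k1 (by positivity)
        _ = (y : ℝ) ^ 5 := by ring
    have i3 : 32 * ((q : ℝ) ^ 10 * N) ≤ (q : ℝ) ^ 10 * (y : ℝ) ^ 5 := by
      calc 32 * ((q : ℝ) ^ 10 * N) = (q : ℝ) ^ 10 * (32 * N) := by ring
        _ ≤ (q : ℝ) ^ 10 * (y : ℝ) ^ 5 := mul_le_mul_of_nonneg_left i2 (by positivity)
    have i4 : ((q : ℝ) ^ 2 * y) ^ 5 = (q : ℝ) ^ 10 * (y : ℝ) ^ 5 := by ring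
    have i5 : (2 * (a : ℝ) ^ 2) ^ 5 = 32 * (a : ℝ) ^ 10 := by ring
    rw [i4, i5] at i1
    linarith
  have hbound := real_bound5 (a := a) (Z := Z) (m := m)
    (g := 64 * (q : ℝ) ^ 10 * ((x : ℝ) ^ 2 - (y : ℝ) ^ 5)) (P := (q : ℝ) ^ 10 * N) ha0r hZa
    (by
      have : 8 * (a : ℝ) ^ 5 + 20 * (a : ℝ) ^ 3 * Z + 15 * a * (Z : ℝ) ^ 2 + m
          = 8 * (q : ℝ) ^ 5 * x := by
        rw [hm]; push_cast; ring
      rw [this]; positivity)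
    hid
    (by
      rw [abs_mul, abs_of_pos (by positivity : (0 : ℝ) < 64 * (q : ℝ) ^ 10)]
      calc 64 * (q : ℝ) ^ 10 * |(x : ℝ) ^ 2 - (y : ℝ) ^ 5| ≤ 64 * (q : ℝ) ^ 10 * N :=
            mul_le_mul_of_nonneg_left hn' (by positivity)
        _ = 64 * ((q : ℝ) ^ 10 * N) := by ring)
    hPa
  refine ⟨q, a, Z, 2 * a * m - 5 * Z ^ 3, hq0, hrQ, ha0, by rw [hZ]; ring, ?_, ?_, ?_, ?_, ?_⟩
  · -- size of Z
    have i1 : (|(Z : ℝ)| * Q) ^ 2 ≤ (3 * (q * s)) ^ 2 := pow_le_pow_left₀ (by positivity) hZQ 2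
    have i2 : (Z : ℝ) ^ 2 * (Q : ℝ) ^ 2 ≤ 9 * (q : ℝ) ^ 2 * y := by
      calc (Z : ℝ) ^ 2 * (Q : ℝ) ^ 2 = (|(Z : ℝ)| * Q) ^ 2 := by rw [mul_pow, sq_abs]
        _ ≤ (3 * (q * s)) ^ 2 := i1
        _ = 9 * (q : ℝ) ^ 2 * y := by rw [mul_pow, hqsq]; ring
    exact_mod_cast i2
  · refine ⟨16 * a * (q : ℤ) ^ 3 * x + 2 * (a : ℤ) ^ 4 * y - 12 * (a : ℤ) ^ 2 * (q : ℤ) ^ 2 * (y : ℤ) ^ 2
      - 6 * (q : ℤ) ^ 4 * (y : ℤ) ^ 3, ?_⟩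
    rw [hm, hZ]
    ring
  · exact ⟨2 * m, by ring⟩
  · -- nonzero
    intro h0
    have h3 : 2 * (a : ℤ) * m = 0 := by linarith
    have hm0 : m = 0 := by
      rcases mul_eq_zero.1 h3 with h4 | h4
      · exfalso
        have : (0 : ℤ) < a := by exact_mod_cast ha0
        omega
      · exact h4
    -- q = 1
    have hdvd : ((q : ℤ) ^ 2) ∣ 3 * (a : ℤ) ^ 5 := by
      refine ⟨8 * (q : ℤ) ^ 3 * x + 10 * (a : ℤ) ^ 3 * y - 15 * a * (q : ℤ) ^ 2 * (y : ℤ) ^ 2, ?_⟩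
      have h5 : 8 * (q : ℤ) ^ 5 * x - 8 * (a : ℤ) ^ 5 - 20 * (a : ℤ) ^ 3 * ((q : ℤ) ^ 2 * y - (a : ℤ) ^ 2)
          - 15 * a * ((q : ℤ) ^ 2 * y - (a : ℤ) ^ 2) ^ 2 = 0 := by
        rw [hm, hZ] at hm0
        exact hm0
      linear_combination -h5
    have hdvd' : q ^ 2 ∣ 3 * a ^ 5 := by exact_mod_cast hdvd
    have hcop' : Nat.Coprime (q ^ 2) (a ^ 5) := (hcop.symm.pow_left 2).pow_right 5
    have hq3 : q ^ 2 ∣ 3 := hcop'.dvd_of_dvd_mul_right hdvd'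
    have hqone : q = 1 := by
      rcases Nat.lt_or_ge q 2 with h6 | h6
      · omega
      · exfalso
        have h7 := Nat.pow_le_pow_left h6 2
        have h8 := Nat.le_of_dvd (by norm_num) hq3
        omega
    rw [hm0] at hid
    rw [hqone] at hid hay
    have hid2 : (Z : ℝ) ^ 3 * (40 * (a : ℝ) ^ 4 + 95 * (a : ℝ) ^ 2 * Z + 64 * (Z : ℝ) ^ 2)
        = -(64 * ((x : ℝ) ^ 2 - (y : ℝ) ^ 5)) := by
      push_cast at hid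
      linear_combination (-1) * hid
    have hZne : Z ≠ 0 := by
      intro hZ0
      rw [hZ0] at hid2
      have h7 : (x : ℝ) ^ 2 = (y : ℝ) ^ 5 := by
        push_cast at hid2
        linear_combination (1 / 64) * hid2
      exact hxy (by exact_mod_cast h7)
    have hZ1 : (1 : ℝ) ≤ |(Z : ℝ)| := by
      have : (1 : ℤ) ≤ |Z| := Int.one_le_abs hZne
      exact_mod_cast this
    have hZ3 : (1 : ℝ) ≤ |(Z : ℝ) ^ 3| := by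
      rw [abs_pow]
      exact one_le_pow₀ hZ1
    have ha2p : (0 : ℝ) < (a : ℝ) ^ 2 := by positivity
    have h9 : 16 * (a : ℝ) ^ 4 ≤ 40 * (a : ℝ) ^ 4 + 95 * (a : ℝ) ^ 2 * Z + 64 * (Z : ℝ) ^ 2 := by
      have k1 := neg_abs_le (Z : ℝ)
      have k2 := mul_le_mul_of_nonneg_left k1 (by positivity : 0 ≤ 95 * (a : ℝ) ^ 2)
      have k3 := mul_le_mul_of_nonneg_left hZa (by positivity : 0 ≤ 24 * (a : ℝ) ^ 2)
      have k4 : 0 ≤ 64 * (Z : ℝ) ^ 2 := by positivity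
      have k5 : 24 * (a : ℝ) ^ 2 * (a : ℝ) ^ 2 = 24 * (a : ℝ) ^ 4 := by ring
      have k6 : 0 ≤ (a : ℝ) ^ 2 * |(Z : ℝ)| := by positivity
      have k7 : 24 * (a : ℝ) ^ 2 * (4 * |(Z : ℝ)|) = 96 * ((a : ℝ) ^ 2 * |(Z : ℝ)|) := by ring
      have k8 : 95 * (a : ℝ) ^ 2 * -|(Z : ℝ)| = -(95 * ((a : ℝ) ^ 2 * |(Z : ℝ)|)) := by ring
      rw [k5, k7] at k3
      rw [k8] at k2
      linarith
    have h10 : 16 * (a : ℝ) ^ 4 ≤ 64 * N := by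
      have k0 : 0 ≤ 16 * (a : ℝ) ^ 4 := by positivity
      have k1 : |(Z : ℝ) ^ 3 * (40 * (a : ℝ) ^ 4 + 95 * (a : ℝ) ^ 2 * Z + 64 * (Z : ℝ) ^ 2)|
          = |(Z : ℝ) ^ 3| * (40 * (a : ℝ) ^ 4 + 95 * (a : ℝ) ^ 2 * Z + 64 * (Z : ℝ) ^ 2) := by
        rw [abs_mul, abs_of_nonneg (k0.trans h9)]
      have k2 : |(-(64 * ((x : ℝ) ^ 2 - (y : ℝ) ^ 5)))| = 64 * |(x : ℝ) ^ 2 - (y : ℝ) ^ 5| := by
        rw [abs_neg, abs_mul]; norm_num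
      have k3 : |(Z : ℝ) ^ 3| * (40 * (a : ℝ) ^ 4 + 95 * (a : ℝ) ^ 2 * Z + 64 * (Z : ℝ) ^ 2)
          = 64 * |(x : ℝ) ^ 2 - (y : ℝ) ^ 5| := by
        rw [← k1, hid2, k2]
      calc 16 * (a : ℝ) ^ 4 ≤ 1 * (40 * (a : ℝ) ^ 4 + 95 * (a : ℝ) ^ 2 * Z + 64 * (Z : ℝ) ^ 2) := by
            linarith
        _ ≤ |(Z : ℝ) ^ 3| * (40 * (a : ℝ) ^ 4 + 95 * (a : ℝ) ^ 2 * Z + 64 * (Z : ℝ) ^ 2) :=
            mul_le_mul_of_nonneg_right hZ3 (k0.trans h9)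
        _ = 64 * |(x : ℝ) ^ 2 - (y : ℝ) ^ 5| := k3
        _ ≤ 64 * N := by linarith
    push_cast at hay
    have h11 : (y : ℝ) ^ 2 ≤ 4 * (a : ℝ) ^ 4 := by
      have k1 : (y : ℝ) ≤ 2 * (a : ℝ) ^ 2 := by linarith
      calc (y : ℝ) ^ 2 ≤ (2 * (a : ℝ) ^ 2) ^ 2 := pow_le_pow_left₀ (by positivity) k1 2
        _ = 4 * (a : ℝ) ^ 4 := by ring
    linarith
  · -- size of c
    have i0 : 0 ≤ (a : ℝ) ^ 4 * |2 * (a : ℝ) * m - 5 * (Z : ℝ) ^ 3| := by positivity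
    have i1 : ((q : ℝ) ^ 2 * y) ^ 2 * |2 * (a : ℝ) * m - 5 * (Z : ℝ) ^ 3| ≤
        1296 * ((q : ℝ) ^ 2 * y * |(Z : ℝ)| ^ 4 + (q : ℝ) ^ 10 * N) := by
      have k1 : ((q : ℝ) ^ 2 * y) ^ 2 ≤ 4 * (a : ℝ) ^ 4 := by
        calc ((q : ℝ) ^ 2 * y) ^ 2 ≤ (2 * (a : ℝ) ^ 2) ^ 2 := pow_le_pow_left₀ (by positivity) hay 2
          _ = 4 * (a : ℝ) ^ 4 := by ring
      have k2 := mul_le_mul_of_nonneg_right k1 (abs_nonneg (2 * (a : ℝ) * m - 5 * (Z : ℝ) ^ 3))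
      have k3 := mul_le_mul_of_nonneg_right hay' (by positivity : 0 ≤ |(Z : ℝ)| ^ 4)
      have k4 : 0 ≤ (q : ℝ) ^ 10 * N := by positivity
      linarith
    have i2 : ((((q : ℤ) ^ 2 * y) ^ 2 * |2 * (a : ℤ) * m - 5 * Z ^ 3| : ℤ) : ℝ) ≤
        ((1296 * ((q : ℤ) ^ 2 * y * |Z| ^ 4 + (q : ℤ) ^ 10 * N) : ℤ) : ℝ) := by
      push_cast
      exact i1
    exact_mod_cast i2

end PerfectPowerDiff.Fifth
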