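import Pool.Agent.Lib.MP_cb2e5b_nt.Dens.Ranges
import Pool.Agent.Lib.MP_cb2e5b_nt.Fifth.Near5
import Pool.Agent.Lib.MP_cb2e5b_nt.Fifth.Cubes

/-!
The number of the `y` in `(D ^ (2 j), D ^ (2 j + 2)]` with a square near `y ^ 5`.
-/

set_option autoImplicit false

namespace PerfectPowerDiff.Fifth

/-- the number belonging to `(q, Z, k)` -/
def TT (q : ℕ) (u : ℤ × ℤ) : ℕ :=
  (5 * u.1 ^ 3 + ((q : ℤ) ^ 2 * u.2 + u.1 ^ 3 % (q : ℤ) ^ 2)).natAbs

/-- the parameters for `q` -/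
noncomputable def PP (Zq Kq : ℕ) : Finset (ℤ × ℤ) :=
  (Finset.Icc (-(Zq : ℤ)) Zq) ×ˢ (Finset.Icc (-(Kq : ℤ)) Kq)

/-- the `y` belonging to `q` -/
noncomputable def YY (q Zq Kq : ℕ) : Finset ℕ :=
  (PP Zq Kq).biUnion (fun u => (TT q u).divisors.image (fun a : ℕ => (((a : ℤ) ^ 2 + u.1) / (q : ℤ) ^ 2).toNat))

theorem card_PP (Zq Kq : ℕ) : (PP Zq Kq).card = (2 * Zq + 1) * (2 * Kq + 1) := by
  unfold PP
  rw [Finset.card_product, Int.card_Icc, Int.card_Icc]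
  congr 1 <;> omega

theorem card_YY {q Zq Kq M : ℕ} (hM : ∀ u ∈ PP Zq Kq, (TT q u).divisors.card ≤ M) :
    (YY q Zq Kq).card ≤ (2 * Zq + 1) * (2 * Kq + 1) * M := by
  unfold YY
  refine (Finset.card_biUnion_le_card_mul _ _ M ?_).trans (by rw [card_PP])
  intro u hu
  exact Finset.card_image_le.trans (hM u hu)

/-- membership -/
theorem mem_YY {q a y Zq Kq : ℕ} {Z c : ℤ} (hq : 0 < q) (hy : (q : ℤ) ^ 2 * y = a ^ 2 + Z)
    (hZ : |Z| ≤ Zq) (hc : ((q : ℤ) ^ 2) ∣ c - Z ^ 3) (ha : (a : ℤ) ∣ 5 * Z ^ 3 + c)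
    (h0 : 5 * Z ^ 3 + c ≠ 0) (hK : |c / (q : ℤ) ^ 2| ≤ Kq) : y ∈ YY q Zq Kq := by
  have hq2 : (0 : ℤ) < (q : ℤ) ^ 2 := by
    have : (0 : ℤ) < q := by exact_mod_cast hq
    positivity
  unfold YY
  rw [Finset.mem_biUnion]
  refine ⟨(Z, c / (q : ℤ) ^ 2), ?_, ?_⟩
  · unfold PP
    rw [Finset.mem_product, Finset.mem_Icc, Finset.mem_Icc]
    obtain ⟨z1, z2⟩ := abs_le.1 hZ
    obtain ⟨k1, k2⟩ := abs_le.1 hK
    exact ⟨⟨z1, z2⟩, ⟨k1, k2⟩⟩
  · have hcm : c % (q : ℤ) ^ 2 = Z ^ 3 % (q : ℤ) ^ 2 := by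
      exact (Int.emod_emod_of_dvd _ (dvd_refl _)).symm.trans
        ((Int.emod_emod_of_dvd _ (dvd_refl _)).trans
          (Int.ModEq.symm ((Int.modEq_iff_dvd).2 hc)))
    have hT : TT q (Z, c / (q : ℤ) ^ 2) = (5 * Z ^ 3 + c).natAbs := by
      unfold TT
      simp only
      rw [← hcm, Int.mul_ediv_add_emod]
    rw [Finset.mem_image]
    refine ⟨a, ?_, ?_⟩
    · rw [hT, Nat.mem_divisors]
      refine ⟨?_, ?_⟩
      · have := Int.natAbs_dvd_natAbs.2 ha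
        rwa [Int.natAbs_natCast] at this
      · exact Int.natAbs_ne_zero.2 h0
    · simp only
      rw [← hy, Int.mul_ediv_cancel_left _ hq2.ne']
      exact Int.toNat_natCast y

/-- the parameters of a near point in the range -/
private lemma range_param {D t j h y : ℕ} (hD : 2 ≤ D) (ht : 2 ≤ t) (hj : 15 * t ≤ j + 1)
    (hh1 : 2 * h ≤ j) (hh2 : j ≤ 2 * h + 1)
    (hy : y ∈ goodF 2 (D ^ (30 * t)) (D ^ (2 * j)) (D ^ (2 * j + 2))) :
    ∃ q : ℕ, 0 < q ∧ q ≤ D ^ h ∧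
      y ∈ YY q (3 * q * D ^ (j + 1 - h)) (106272 * D ^ 6) := by
  rw [mem_goodF] at hy
  obtain ⟨⟨hy1, hy2⟩, x, hxy, hx1, hx2⟩ := hy
  have hD0 : 0 < D := by omega
  have hy576 : 576 ≤ y := by
    have : 576 ≤ D ^ (2 * j) := by
      calc 576 ≤ 2 ^ 10 := by norm_num
        _ ≤ 2 ^ (2 * j) := Nat.pow_le_pow_right (by norm_num) (by omega)
        _ ≤ D ^ (2 * j) := Nat.pow_le_pow_left hD _
    omega
  have hyN : 16 * D ^ (30 * t) < y ^ 2 := by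
    calc 16 * D ^ (30 * t) ≤ D ^ 4 * D ^ (30 * t) :=
          Nat.mul_le_mul_right _ (by
            calc 16 = 2 ^ 4 := by norm_num
              _ ≤ D ^ 4 := Nat.pow_le_pow_left hD 4)
      _ = D ^ (4 + 30 * t) := (pow_add _ _ _).symm
      _ ≤ D ^ (2 * j * 2) := Nat.pow_le_pow_right hD0 (by omega)
      _ = (D ^ (2 * j)) ^ 2 := by rw [pow_mul]
      _ < y ^ 2 := Nat.pow_lt_pow_left hy1 (by norm_num)
  obtain ⟨q, a, Z, c, hq0, hqQ, ha0, hyq, hZ2, hcq, hac, hne, hcb⟩ :=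
    near_param5 (Q := D ^ h) (pow_pos hD0 h) hxy hx1 hx2 hy576 hyN
  refine ⟨q, hq0, hqQ, ?_⟩
  -- size of Z
  set zn := Z.natAbs with hzn
  set cn := c.natAbs with hcn
  have hzabs : |Z| = (zn : ℤ) := by rw [hzn]; exact (Int.natCast_natAbs Z).symm
  have hcabs : |c| = (cn : ℤ) := by rw [hcn]; exact (Int.natCast_natAbs c).symm
  have hZn : zn ≤ 3 * q * D ^ (j + 1 - h) := by
    have i1 : zn ^ 2 * (D ^ h) ^ 2 ≤ 9 * q ^ 2 * y := by
      have : ((zn : ℤ)) ^ 2 * ((D ^ h : ℕ) : ℤ) ^ 2 ≤ 9 * (q : ℤ) ^ 2 * y := by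
        rw [hzn, Int.natCast_natAbs, sq_abs]
        exact hZ2
      exact_mod_cast this
    have i2 : (zn * D ^ h) ^ 2 ≤ (3 * q * D ^ (j + 1)) ^ 2 := by
      calc (zn * D ^ h) ^ 2 = zn ^ 2 * (D ^ h) ^ 2 := by ring
        _ ≤ 9 * q ^ 2 * y := i1
        _ ≤ 9 * q ^ 2 * D ^ (2 * j + 2) := Nat.mul_le_mul_left _ hy2
        _ = 9 * q ^ 2 * (D ^ (j + 1)) ^ 2 := by
            rw [← pow_mul D, show (j + 1) * 2 = 2 * j + 2 by ring]
        _ = (3 * q * D ^ (j + 1)) ^ 2 := by ring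
    have i3 := le_of_sq_le i2
    have i4 : 3 * q * D ^ (j + 1) = 3 * q * D ^ (j + 1 - h) * D ^ h := by
      rw [mul_assoc (3 * q), ← pow_add, show j + 1 - h + h = j + 1 by omega]
    rw [i4] at i3
    exact Nat.le_of_mul_le_mul_right i3 (pow_pos hD0 h)
  -- size of c
  have hcn' : cn ≤ 106272 * D ^ 6 * q ^ 2 := by
    have i1 : (q ^ 2 * y) ^ 2 * cn ≤ 1296 * (q ^ 2 * y * zn ^ 4 + q ^ 10 * D ^ (30 * t)) := by
      have : ((q : ℤ) ^ 2 * y) ^ 2 * (cn : ℤ) ≤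
          1296 * ((q : ℤ) ^ 2 * y * (zn : ℤ) ^ 4 + (q : ℤ) ^ 10 * ((D ^ (30 * t) : ℕ) : ℤ)) := by
        rw [← hzabs, ← hcabs]
        exact hcb
      exact_mod_cast this
    have i2 : zn ^ 4 ≤ 81 * q ^ 4 * (y * D ^ 6) := by
      calc zn ^ 4 ≤ (3 * q * D ^ (j + 1 - h)) ^ 4 := Nat.pow_le_pow_left hZn 4
        _ = 81 * q ^ 4 * (D ^ (j + 1 - h)) ^ 4 := by ring
        _ = 81 * q ^ 4 * D ^ ((j + 1 - h) * 4) := by rw [← pow_mul D]
        _ ≤ 81 * q ^ 4 * D ^ (2 * j + 6) :=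
            Nat.mul_le_mul_left _ (Nat.pow_le_pow_right hD0 (by omega))
        _ = 81 * q ^ 4 * (D ^ (2 * j) * D ^ 6) := by rw [pow_add]
        _ ≤ 81 * q ^ 4 * (y * D ^ 6) :=
            Nat.mul_le_mul_left _ (Nat.mul_le_mul_right _ hy1.le)
    have i3 : q ^ 10 * D ^ (30 * t) ≤ q ^ 6 * (y ^ 2 * D ^ 6) := by
      calc q ^ 10 * D ^ (30 * t) = q ^ 6 * (q ^ 4 * D ^ (30 * t)) := by ring
        _ ≤ q ^ 6 * ((D ^ h) ^ 4 * D ^ (30 * t)) :=
            Nat.mul_le_mul_left _ (Nat.mul_le_mul_right _ (Nat.pow_le_pow_left hqQ 4))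
        _ = q ^ 6 * D ^ (h * 4 + 30 * t) := by rw [← pow_mul, ← pow_add]
        _ ≤ q ^ 6 * D ^ (2 * j * 2 + 6) :=
            Nat.mul_le_mul_left _ (Nat.pow_le_pow_right hD0 (by omega))
        _ = q ^ 6 * ((D ^ (2 * j)) ^ 2 * D ^ 6) := by rw [pow_add, pow_mul D (2 * j) 2]
        _ ≤ q ^ 6 * (y ^ 2 * D ^ 6) :=
            Nat.mul_le_mul_left _ (Nat.mul_le_mul_right _ (Nat.pow_le_pow_left hy1.le 2))
    have i4 : (q ^ 2 * y) ^ 2 * cn ≤ (q ^ 2 * y) ^ 2 * (106272 * D ^ 6 * q ^ 2) := by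
      calc (q ^ 2 * y) ^ 2 * cn ≤ 1296 * (q ^ 2 * y * zn ^ 4 + q ^ 10 * D ^ (30 * t)) := i1
        _ ≤ 1296 * (q ^ 2 * y * (81 * q ^ 4 * (y * D ^ 6)) + q ^ 6 * (y ^ 2 * D ^ 6)) :=
            Nat.mul_le_mul_left _ (Nat.add_le_add (Nat.mul_le_mul_left _ i2) i3)
        _ = (q ^ 2 * y) ^ 2 * (106272 * D ^ 6 * q ^ 2) := by ring
    have hpos : 0 < (q ^ 2 * y) ^ 2 := pow_pos (Nat.mul_pos (pow_pos hq0 2) (by omega)) 2
    exact Nat.le_of_mul_le_mul_left i4 hpos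
  have hq2 : (0 : ℤ) < (q : ℤ) ^ 2 := by
    have : (0 : ℤ) < q := by exact_mod_cast hq0
    positivity
  have hcBz : |c| ≤ ((106272 * D ^ 6 : ℕ) : ℤ) * (q : ℤ) ^ 2 := by
    rw [hcabs]
    exact_mod_cast hcn'
  obtain ⟨j1, j2⟩ := abs_le.1 hcBz
  refine mem_YY hq0 hyq ?_ hcq hac hne ?_
  · rw [hzabs]
    exact_mod_cast hZn
  · rw [abs_le]
    constructor
    · apply Int.le_ediv_of_mul_le hq2
      rw [neg_mul]
      exact j1
    · exact Int.ediv_le_of_le_mul hq2 j2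

/-- one range -/
theorem card_range2 {D t j G : ℕ} (hD : 2 ≤ D) (ht : 2 ≤ t) (hj1 : 15 * t ≤ j + 1)
    (hj2 : j + 10 ≤ 18 * t)
    (hG : ∀ T : ℕ, T ≤ 2400 * D ^ (60 * t) → T.divisors.card ≤ G * D) :
    (goodF 2 (D ^ (30 * t)) (D ^ (2 * j)) (D ^ (2 * j + 2))).card ≤
      1487815 * G * D ^ (30 * t - 1) := by
  have hD0 : 0 < D := by omega
  obtain ⟨h, hh1, hh2⟩ : ∃ h : ℕ, 2 * h ≤ j ∧ j ≤ 2 * h + 1 := ⟨j / 2, by omega, by omega⟩
  have hsub : goodF 2 (D ^ (30 * t)) (D ^ (2 * j)) (D ^ (2 * j + 2)) ⊆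
      (Finset.Icc 1 (D ^ h)).biUnion
        (fun q => YY q (3 * q * D ^ (j + 1 - h)) (106272 * D ^ 6)) := by
    intro y hy
    obtain ⟨q, hq0, hqQ, hmem⟩ := range_param hD ht hj1 hh1 hh2 hy
    rw [Finset.mem_biUnion]
    exact ⟨q, Finset.mem_Icc.2 ⟨hq0, hqQ⟩, hmem⟩
  refine (Finset.card_le_card hsub).trans ?_
  have hcell : ∀ q ∈ Finset.Icc 1 (D ^ h),
      (YY q (3 * q * D ^ (j + 1 - h)) (106272 * D ^ 6)).card ≤
        1487815 * D ^ (j + 1 + 6) * (G * D) := by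
    intro q hq
    rw [Finset.mem_Icc] at hq
    obtain ⟨hq0, hqQ⟩ := hq
    have hqD : q * D ^ (j + 1 - h) ≤ D ^ (j + 1) := by
      calc q * D ^ (j + 1 - h) ≤ D ^ h * D ^ (j + 1 - h) := Nat.mul_le_mul_right _ hqQ
        _ = D ^ (j + 1) := by rw [← pow_add]; congr 1; omega
    have hqq : q ^ 2 ≤ D ^ (2 * h) := by
      calc q ^ 2 ≤ (D ^ h) ^ 2 := Nat.pow_le_pow_left hqQ 2
        _ = D ^ (2 * h) := by rw [← pow_mul, mul_comm]
    refine (card_YY (M := G * D) ?_).trans ?_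
    · intro u hu
      apply hG
      unfold PP at hu
      rw [Finset.mem_product, Finset.mem_Icc, Finset.mem_Icc] at hu
      obtain ⟨⟨z1, z2⟩, ⟨k1, k2⟩⟩ := hu
      have hz : |u.1| ≤ ((3 * q * D ^ (j + 1 - h) : ℕ) : ℤ) := abs_le.2 ⟨z1, z2⟩
      have hk : |u.2| ≤ ((106272 * D ^ 6 : ℕ) : ℤ) := abs_le.2 ⟨k1, k2⟩
      have hz' : u.1.natAbs ≤ 3 * q * D ^ (j + 1 - h) := by
        have := hz; rw [← Int.natCast_natAbs] at this; exact_mod_cast this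
      have hk' : u.2.natAbs ≤ 106272 * D ^ 6 := by
        have := hk; rw [← Int.natCast_natAbs] at this; exact_mod_cast this
      have hz'' : u.1.natAbs ≤ 3 * D ^ (j + 1) := by
        calc u.1.natAbs ≤ 3 * q * D ^ (j + 1 - h) := hz'
          _ = 3 * (q * D ^ (j + 1 - h)) := by ring
          _ ≤ 3 * D ^ (j + 1) := Nat.mul_le_mul_left _ hqD
      have hq2 : (0 : ℤ) < (q : ℤ) ^ 2 := by
        have : (0 : ℤ) < q := by exact_mod_cast hq0
        positivity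
      have hr : (u.1 ^ 3 % (q : ℤ) ^ 2).natAbs ≤ q ^ 2 := by
        have r1 := Int.emod_nonneg (u.1 ^ 3) hq2.ne'
        have r2 := Int.emod_lt_of_pos (u.1 ^ 3) hq2
        have r3 : ((u.1 ^ 3 % (q : ℤ) ^ 2).natAbs : ℤ) ≤ ((q ^ 2 : ℕ) : ℤ) := by
          rw [Int.natCast_natAbs, abs_of_nonneg r1]
          push_cast
          exact r2.le
        exact_mod_cast r3
      have t1 : TT q u ≤ 5 * u.1.natAbs ^ 3 + (q ^ 2 * u.2.natAbs + (u.1 ^ 3 % (q : ℤ) ^ 2).natAbs) := by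
        unfold TT
        refine (Int.natAbs_add_le _ _).trans (Nat.add_le_add ?_ ((Int.natAbs_add_le _ _).trans
          (Nat.add_le_add ?_ le_rfl)))
        · rw [Int.natAbs_mul, Int.natAbs_pow]; norm_num
        · rw [Int.natAbs_mul, Int.natAbs_pow, Int.natAbs_natCast]
      have t2 : 5 * u.1.natAbs ^ 3 ≤ 135 * D ^ (60 * t) := by
        calc 5 * u.1.natAbs ^ 3 ≤ 5 * (3 * D ^ (j + 1)) ^ 3 :=
              Nat.mul_le_mul_left _ (Nat.pow_le_pow_left hz'' 3)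
          _ = 135 * (D ^ (j + 1)) ^ 3 := by ring
          _ = 135 * D ^ ((j + 1) * 3) := by rw [← pow_mul]
          _ ≤ 135 * D ^ (60 * t) := Nat.mul_le_mul_left _ (Nat.pow_le_pow_right hD0 (by omega))
      have t3 : q ^ 2 * u.2.natAbs ≤ 2000 * D ^ (60 * t) := by
        calc q ^ 2 * u.2.natAbs ≤ D ^ (2 * h) * (106272 * D ^ 6) := Nat.mul_le_mul hqq hk'
          _ ≤ D ^ (2 * h) * ((2000 * D ^ 6) * D ^ 6) := by
              apply Nat.mul_le_mul_left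
              apply Nat.mul_le_mul_right
              calc 106272 ≤ 2000 * 2 ^ 6 := by norm_num
                _ ≤ 2000 * D ^ 6 := Nat.mul_le_mul_left _ (Nat.pow_le_pow_left hD 6)
          _ = 2000 * D ^ (2 * h + 12) := by
              rw [pow_add D (2 * h) 12]; ring
          _ ≤ 2000 * D ^ (60 * t) :=
              Nat.mul_le_mul_left _ (Nat.pow_le_pow_right hD0 (by omega))
      have t4 : q ^ 2 ≤ D ^ (60 * t) := hqq.trans (Nat.pow_le_pow_right hD0 (by omega))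
      omega
    · have u0 : 1 ≤ D ^ (j + 1) := Nat.one_le_pow _ _ hD0
      have u3 : 1 ≤ D ^ 6 := Nat.one_le_pow _ _ hD0
      have u1 : 2 * (3 * q * D ^ (j + 1 - h)) + 1 ≤ 7 * D ^ (j + 1) := by
        calc 2 * (3 * q * D ^ (j + 1 - h)) + 1 = 6 * (q * D ^ (j + 1 - h)) + 1 := by ring
          _ ≤ 6 * D ^ (j + 1) + D ^ (j + 1) := Nat.add_le_add (Nat.mul_le_mul_left _ hqD) u0
          _ = 7 * D ^ (j + 1) := by ring
      have u2 : 2 * (106272 * D ^ 6) + 1 ≤ 212545 * D ^ 6 := by omega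
      calc (2 * (3 * q * D ^ (j + 1 - h)) + 1) * (2 * (106272 * D ^ 6) + 1) * (G * D)
          ≤ (7 * D ^ (j + 1)) * (212545 * D ^ 6) * (G * D) :=
            Nat.mul_le_mul_right _ (Nat.mul_le_mul u1 u2)
        _ = 1487815 * D ^ (j + 1 + 6) * (G * D) := by rw [pow_add D (j + 1) 6]; ring
  refine (Finset.card_biUnion_le_card_mul _ _ _ hcell).trans ?_
  rw [Nat.card_Icc, Nat.add_sub_cancel]
  calc D ^ h * (1487815 * D ^ (j + 1 + 6) * (G * D))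
      = 1487815 * G * D ^ (h + (j + 1 + 6) + 1) := by
        rw [pow_add D (h + (j + 1 + 6)) 1, pow_add D h (j + 1 + 6)]; ring
    _ ≤ 1487815 * G * D ^ (30 * t - 1) :=
        Nat.mul_le_mul_left _ (Nat.pow_le_pow_right hD0 (by omega))

private lemma card_upto {D t G : ℕ} (hD : 2 ≤ D) (ht : 3 ≤ t)
    (hG : ∀ T : ℕ, T ≤ 2400 * D ^ (60 * t) → T.divisors.card ≤ G * D) :
    ∀ i : ℕ, i + 8 ≤ 3 * t →
    (goodF 2 (D ^ (30 * t)) (D ^ (30 * t - 2)) (D ^ (2 * (15 * t - 1 + i)))).card ≤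
      i * (1487815 * G * D ^ (30 * t - 1)) := by
  intro i
  induction i with
  | zero =>
    intro _
    have : goodF 2 (D ^ (30 * t)) (D ^ (30 * t - 2)) (D ^ (2 * (15 * t - 1 + 0))) = ∅ := by
      rw [Finset.eq_empty_iff_forall_notMem]
      intro z hz
      rw [mem_goodF, show 2 * (15 * t - 1 + 0) = 30 * t - 2 by omega] at hz
      omega
    rw [this]
    simp
  | succ i ih =>
    intro h
    have h1 := ih (by omega)
    have h2 := card_range2 (D := D) (t := t) (j := 15 * t - 1 + i) (G := G) hD (by omega)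
      (by omega) (by omega) hG
    have h3 := (Finset.card_le_card (goodF_union (p := 2) (N := D ^ (30 * t))
      (a := D ^ (30 * t - 2)) (b := D ^ (2 * (15 * t - 1 + i)))
      (c := D ^ (2 * (15 * t - 1 + i) + 2)))).trans (Finset.card_union_le _ _)
    have h4 : (i + 1) * (1487815 * G * D ^ (30 * t - 1)) =
        i * (1487815 * G * D ^ (30 * t - 1)) + 1487815 * G * D ^ (30 * t - 1) := by ring
    rw [h4, show 2 * (15 * t - 1 + (i + 1)) = 2 * (15 * t - 1 + i) + 2 by ring]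
    omega

/-- squares near fifth powers -/
theorem card_goodF2 {D t G : ℕ} (hD : 2 ≤ D) (ht : 3 ≤ t)
    (hG : ∀ T : ℕ, T ≤ 2400 * D ^ (60 * t) → T.divisors.card ≤ G * D) :
    (goodF 2 (D ^ (30 * t)) (D ^ (30 * t - 2)) (D ^ (36 * t - 18))).card ≤
      4463445 * t * G * D ^ (30 * t - 1) := by
  have h1 := card_upto hD ht hG (3 * t - 8) (by omega)
  rw [show 2 * (15 * t - 1 + (3 * t - 8)) = 36 * t - 18 by omega] at h1
  refine h1.trans ?_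
  calc (3 * t - 8) * (1487815 * G * D ^ (30 * t - 1)) ≤
        (3 * t) * (1487815 * G * D ^ (30 * t - 1)) := Nat.mul_le_mul_right _ (by omega)
    _ = 4463445 * t * G * D ^ (30 * t - 1) := by ring

end PerfectPowerDiff.Fifth
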