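import Pool.Agent.Lib.MP_cb2e5b_nt.Dens.Sets2
import Pool.Agent.Lib.MP_cb2e5b_nt.Fifth.Squares

/-!
The set of the `n ≤ D ^ (30 t)`, `n ≡ 2 mod 4`, with a low representation as a difference of two
perfect powers is small: with the fifth powers up to height `D ^ (180 t - 90)`.
-/

set_option autoImplicit false

namespace PerfectPowerDiff.Fifth

open PerfectPowerDiff.Dens

/-- four values of `n` for each `w` -/
private lemma card_four_values {p D t : ℕ} (hp : 2 ≤ p) (hD : 2 ≤ D) (ht : 2 ≤ t) {w : ℕ}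
    (hw : D ^ (27 * t) < w) : (VV p 5 (D ^ (30 * t)) w).card ≤ 4 := by
  have hD0 : 0 < D := by omega
  have hN : 0 < D ^ (30 * t) := pow_pos hD0 _
  have hM : D ^ (60 * t) ≤ w ^ 5 := by
    calc D ^ (60 * t) ≤ D ^ (27 * t * 5) := Nat.pow_le_pow_right hD0 (by omega)
      _ = (D ^ (27 * t)) ^ 5 := by rw [pow_mul]
      _ ≤ w ^ 5 := Nat.pow_le_pow_left hw.le 5
  have h2N : 2 * D ^ (30 * t) ≤ w ^ 5 := by
    refine le_trans ?_ hM
    calc 2 * D ^ (30 * t) ≤ D * D ^ (30 * t) := Nat.mul_le_mul_right _ hD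
      _ = D ^ (30 * t + 1) := by rw [pow_succ, mul_comm]
      _ ≤ D ^ (60 * t) := Nat.pow_le_pow_right hD0 (by omega)
  have hc : (ZZ p (w ^ 5) (D ^ (30 * t))).card ≤ 3 + 1 := by
    apply card_ZZ_big hp hN h2N
    calc 8 * (D ^ (30 * t)) ^ 2 ≤ 9 * (D ^ (30 * t)) ^ 2 := Nat.mul_le_mul_right _ (by norm_num)
      _ = 3 ^ 2 * D ^ (60 * t) := by rw [← pow_mul]; ring_nf
      _ ≤ 3 ^ 2 * w ^ 5 := Nat.mul_le_mul_left _ hM
  exact card_VV_le hc

/-- the bad integers up to `D ^ (30 t)` -/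
noncomputable def Bad3 (D t Λ : ℕ) : Finset ℕ :=
  Bad2 D t Λ ∪
    ((goodF 2 (D ^ (30 * t)) (D ^ (30 * t - 2)) (D ^ (36 * t - 18))).biUnion (VV 2 5 (D ^ (30 * t))) ∪
      (goodF 3 (D ^ (30 * t)) (D ^ (27 * t)) (D ^ (36 * t - 18))).biUnion (VV 3 5 (D ^ (30 * t))))

theorem card_Bad3 {D t Λ G : ℕ} (hD : 2 ≤ D) (ht : 3 ≤ t)
    (hG : ∀ T : ℕ, T ≤ 2400 * D ^ (60 * t) → T.divisors.card ≤ G * D) :
    (Bad3 D t Λ).card ≤
      (16 * Λ ^ 2 + (1612 * t + 3425240 * t * G ^ 2 + 17853780 * t * G)) * D ^ (30 * t - 1) := by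
  have hD0 : 0 < D := by omega
  have ht2 : 2 ≤ t := by omega
  have h1 := card_Bad2 (Λ := Λ) hD ht2 hG
  have h2 : ((goodF 2 (D ^ (30 * t)) (D ^ (30 * t - 2)) (D ^ (36 * t - 18))).biUnion
      (VV 2 5 (D ^ (30 * t)))).card ≤ 17853780 * t * G * D ^ (30 * t - 1) := by
    refine (Finset.card_biUnion_le_card_mul _ _ 4 ?_).trans ?_
    · intro w hw
      rw [mem_goodF] at hw
      refine card_four_values le_rfl hD ht2 (lt_of_le_of_lt ?_ hw.1.1)
      exact Nat.pow_le_pow_right hD0 (by omega)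
    · calc (goodF 2 (D ^ (30 * t)) (D ^ (30 * t - 2)) (D ^ (36 * t - 18))).card * 4
          ≤ (4463445 * t * G * D ^ (30 * t - 1)) * 4 := Nat.mul_le_mul_right _ (card_goodF2 hD ht hG)
        _ = 17853780 * t * G * D ^ (30 * t - 1) := by ring
  have h3 : ((goodF 3 (D ^ (30 * t)) (D ^ (27 * t)) (D ^ (36 * t - 18))).biUnion
      (VV 3 5 (D ^ (30 * t)))).card ≤ 24 * t * D ^ (30 * t - 1) := by
    refine (Finset.card_biUnion_le_card_mul _ _ 4 ?_).trans ?_
    · intro w hw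
      rw [mem_goodF] at hw
      exact card_four_values (by norm_num) hD ht2 hw.1.1
    · calc (goodF 3 (D ^ (30 * t)) (D ^ (27 * t)) (D ^ (36 * t - 18))).card * 4
          ≤ (6 * t * D ^ (30 * t - 1)) * 4 := Nat.mul_le_mul_right _ (card_goodF3 hD ht2)
        _ = 24 * t * D ^ (30 * t - 1) := by ring
  unfold Bad3
  refine (Finset.card_union_le _ _).trans ?_
  refine (Nat.add_le_add h1 ((Finset.card_union_le _ _).trans (Nat.add_le_add h2 h3))).trans
    (le_of_eq ?_)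
  ring

/-- exponents up to `5`, not both `5` -/
private lemma exp_low {z p : ℕ} (hp2 : 2 ≤ p) (hp5 : p < 5) :
    ∃ Z r : ℕ, (r = 2 ∨ r = 3) ∧ z ^ p = Z ^ r := by
  interval_cases p
  · exact ⟨z, 2, Or.inl rfl, rfl⟩
  · exact ⟨z, 3, Or.inr rfl, rfl⟩
  · exact ⟨z ^ 2, 2, Or.inl rfl, by rw [← pow_mul]⟩

/-- membership: low representations of `n ≡ 2 mod 4` -/
theorem mem_Bad3 {D t Λ n x y k l : ℕ} (hD : 2 ≤ D) (ht : 3 ≤ t) (hΛ5 : 5 ≤ Λ)
    (hn : n ≤ D ^ (30 * t)) (hn4 : n % 4 = 2)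
    (hx : 0 < x) (hy : 0 < y) (hk : 2 ≤ k) (hl : 2 ≤ l) (h : n + y ^ l = x ^ k)
    (hΛ : x ^ k < 2 ^ Λ)
    (h6 : 6 ≤ max k l → x ^ k ≤ (D ^ (30 * t - 1)) ^ (max k l))
    (h5 : max k l = 5 → x ^ k ≤ (D ^ (36 * t - 18)) ^ 5)
    (h3 : max k l < 5 → x ^ k ≤ (D ^ (60 * t - 28)) ^ 3) : n ∈ Bad3 D t Λ := by
  have hD0 : 0 < D := by omega
  have ht2 : 2 ≤ t := by omega
  have inB : n ∈ Bad2 D t Λ → n ∈ Bad3 D t Λ := by
    intro hb
    unfold Bad3
    rw [Finset.mem_union]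
    exact Or.inl hb
  have inF : ∀ z w p : ℕ, (p = 2 ∨ p = 3) → D ^ (30 * t - 2) < w → w ≤ D ^ (36 * t - 18) →
      (n + w ^ 5 = z ^ p ∨ n + z ^ p = w ^ 5) → n ∈ Bad3 D t Λ := by
    intro z w p hp hw1 hw2 hnz
    unfold Bad3
    rw [Finset.mem_union]
    refine Or.inr ?_
    rw [Finset.mem_union]
    rcases hp with rfl | rfl
    · refine Or.inl ?_
      rw [Finset.mem_biUnion]
      refine ⟨w, ?_, mem_VV_of (by norm_num) hn hnz⟩
      rw [mem_goodF]
      exact ⟨⟨hw1, hw2⟩, z, by omega, by omega, by omega⟩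
    · refine Or.inr ?_
      rw [Finset.mem_biUnion]
      refine ⟨w, ?_, mem_VV_of (by norm_num) hn hnz⟩
      rw [mem_goodF]
      refine ⟨⟨lt_of_le_of_lt (Nat.pow_le_pow_right hD0 (by omega)) hw1, hw2⟩, z, ?_, ?_, ?_⟩ <;> omega
  by_cases hs : 5 ≤ max k l → x ^ k ≤ (D ^ (30 * t - 1)) ^ (max k l)
  · exact inB (mem_Bad2 hD ht2 hΛ5 hn hn4 hx hy hk hl h hΛ hs h3)
  · rw [Classical.not_imp] at hs
    obtain ⟨hs1, hs2⟩ := hs
    have hm : max k l = 5 := by
      by_contra hcon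
      exact hs2 (h6 (by omega))
    have hup := h5 hm
    rw [hm, not_le] at hs2
    have hbase : ∀ u : ℕ, u ^ 5 ≤ (D ^ (36 * t - 18)) ^ 5 → u ≤ D ^ (36 * t - 18) := by
      intro u hu
      by_contra hcon
      have := Nat.pow_lt_pow_left (not_le.1 hcon) (show 5 ≠ 0 by norm_num)
      omega
    -- a lower bound for the fifth power
    have hbig : ∀ u : ℕ, u ≤ D ^ (30 * t - 2) → n + u ^ 5 ≤ (D ^ (30 * t - 1)) ^ 5 := by
      intro u hu
      calc n + u ^ 5 ≤ D ^ (30 * t) + (D ^ (30 * t - 2)) ^ 5 :=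
            Nat.add_le_add hn (Nat.pow_le_pow_left hu 5)
        _ = D ^ (30 * t) + D ^ ((30 * t - 2) * 5) := by rw [← pow_mul]
        _ ≤ D ^ ((30 * t - 2) * 5) + D ^ ((30 * t - 2) * 5) :=
            Nat.add_le_add_right (Nat.pow_le_pow_right hD0 (by omega)) _
        _ = 2 * D ^ ((30 * t - 2) * 5) := by ring
        _ ≤ D * D ^ ((30 * t - 2) * 5) := Nat.mul_le_mul_right _ hD
        _ = D ^ ((30 * t - 2) * 5 + 1) := by rw [pow_succ, mul_comm]
        _ ≤ D ^ ((30 * t - 1) * 5) := Nat.pow_le_pow_right hD0 (by omega)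
        _ = (D ^ (30 * t - 1)) ^ 5 := by rw [pow_mul]
    have hk5 : k ≤ 5 := hm ▸ le_max_left k l
    have hl5 : l ≤ 5 := hm ▸ le_max_right k l
    rcases Nat.lt_or_ge k 5 with hkl | hkg
    · -- `l = 5`
      have hl' : l = 5 := by
        rcases max_choice k l with h7 | h7 <;> omega
      subst hl'
      obtain ⟨Z, r, hr, hZ⟩ := exp_low (z := x) hk hkl
      rw [hZ] at h hup hs2
      refine inF Z y r hr ?_ (hbase y (by omega)) (Or.inl h)
      by_contra hcon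
      have := hbig y (not_lt.1 hcon)
      omega
    · have hk' : k = 5 := by omega
      subst hk'
      have hxbig : D ^ (30 * t - 2) < x := by
        by_contra hcon
        have := hbig x (not_lt.1 hcon)
        omega
      rcases Nat.lt_or_ge l 5 with hll | hlg
      · obtain ⟨Z, r, hr, hZ⟩ := exp_low (z := y) hl hll
        rw [hZ] at h
        exact inF Z x r hr hxbig (hbase x hup) (Or.inr h)
      · -- two fifth powers
        exfalso
        have hl' : l = 5 := by omega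
        subst hl'
        have hyx' : y + 1 ≤ x := by
          by_contra hcon
          have := Nat.pow_le_pow_left (show x ≤ y by omega) 5
          omega
        have h8 : x ^ 4 ≤ n := by
          obtain ⟨z, rfl⟩ : ∃ z, x = z + 1 := ⟨x - 1, by omega⟩
          have h9 : y ^ 5 ≤ z ^ 5 := Nat.pow_le_pow_left (by omega) 5
          have h10 : (z + 1) ^ 5 = (z + 1) ^ 4 * z + (z + 1) ^ 4 := by ring
          have h11 : z ^ 5 ≤ (z + 1) ^ 4 * z := by
            calc z ^ 5 = z ^ 4 * z := by ring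
              _ ≤ (z + 1) ^ 4 * z := Nat.mul_le_mul_right _ (Nat.pow_le_pow_left (by omega) 4)
          omega
        have h12 : D ^ (30 * t) < x ^ 4 := by
          calc D ^ (30 * t) ≤ D ^ ((30 * t - 2) * 4) := Nat.pow_le_pow_right hD0 (by omega)
            _ = (D ^ (30 * t - 2)) ^ 4 := by rw [pow_mul]
            _ < x ^ 4 := Nat.pow_lt_pow_left hxbig (by norm_num)
        omega

end PerfectPowerDiff.Fifth
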